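import Pool.Agent.T2H08.FQ.Val

/-!
# The characters are roots of unity
-/

set_option autoImplicit false

namespace Pool.Agent.T2H08.FQ

open Pool.Agent.W594.SYZ2 Pool.Agent.W594.SYZ2.TQ Pool.Agent.TH735.AQ MvPolynomial

variable {n c : ℕ} {r : Fin c → ℕ} {Γ : Subgroup (Grp n r)}

variable {L : LineBundle Γ} {ρ : (Fin n → ℂ) → ℂ} {σ : MvPolynomial (Co r) ℂ} {l k : Fin c → ℕ}
  {β : (Fin n → ℂ) → MvPolynomial (Co r) ℂ} {m : ℕ} {H : (Fin n → ℂ) → (Fin n → ℂ) → ℂ}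
  {f : (Fin n → ℂ) → ℂ}

/-- the differences of the exponents -/
def Dif (β : (Fin n → ℂ) → MvPolynomial (Co r) ℂ) (σ : MvPolynomial (Co r) ℂ) :
    Set (Co r → ℤ) :=
  {x | ∃ I I' : Co r →₀ ℕ, (∃ v, coeff I (β v) ≠ 0) ∧ (∃ v, coeff I' (β v) ≠ 0) ∧
      x = fun s => (I s : ℤ) - I' s} ∪
    {x | ∃ J ∈ σ.support, ∃ J' ∈ σ.support, x = fun s => (J s : ℤ) - J' s}

/-- multiples of the differences of two coordinates of a factor -/
theorem exists_N (hρ : Differentiable ℂ ρ) (hβ : IsEffective β k) (hl : IsHomog l σ)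
    (hρ0 : ∃ v, ρ v ≠ 0) (hσ0 : σ ≠ 0) (hm : 1 ≤ m) (hklt : IsKlt m ρ σ β)
    (hk : ∀ j, m * (l j + (r j + 1)) ≤ k j) :
    ∃ N : ℕ, 1 ≤ N ∧ ∀ (j : Fin c) (i i' : Fin (r j + 1)),
      N • (Pi.single ⟨j, i⟩ 1 - Pi.single ⟨j, i'⟩ 1 : Co r → ℤ) ∈
        AddSubgroup.closure (Dif β σ) := by
  classical
  have h1 : ∀ x : (Σ j : Fin c, Fin (r j + 1) × Fin (r j + 1)), ∃ N : ℕ, 1 ≤ N ∧
      N • (Pi.single ⟨x.1, x.2.1⟩ 1 - Pi.single ⟨x.1, x.2.2⟩ 1 : Co r → ℤ) ∈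
        AddSubgroup.closure (Dif β σ) := by
    rintro ⟨j, i, i'⟩
    by_contra hcon
    push Not at hcon
    obtain ⟨w, hw, hw0⟩ := exists_form hcon
    obtain ⟨v1, hv1⟩ := hβ.ne_zero
    obtain ⟨I0, hI0⟩ := MvPolynomial.support_nonempty.2 hv1
    obtain ⟨J0, hJ0⟩ := MvPolynomial.support_nonempty.2 hσ0
    have h2 := weight_const hρ hβ hl hρ0 hσ0 hm hklt hk (w := fun s => (w s : ℝ))
      (W := ∑ s, (w s : ℝ) * I0 s) (W' := ∑ s, (w s : ℝ) * J0 s)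
      (fun J hJ => by
        have h3 := hw (fun s => (J s : ℤ) - J0 s) (Or.inr ⟨J, hJ, J0, hJ0, rfl⟩)
        have h4 : ((∑ s, w s * (((J s : ℤ) - J0 s : ℤ) : ℚ) : ℚ) : ℝ) = 0 := by
          rw [h3, Rat.cast_zero]
        push_cast at h4
        simp only [mul_sub] at h4
        rw [Finset.sum_sub_distrib] at h4
        linarith)
      (fun v I hI => by
        have h3 := hw (fun s => (I s : ℤ) - I0 s) (Or.inl ⟨I, I0, ⟨v, mem_support_iff.1 hI⟩,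
          ⟨v1, mem_support_iff.1 hI0⟩, rfl⟩)
        have h4 : ((∑ s, w s * (((I s : ℤ) - I0 s : ℤ) : ℚ) : ℚ) : ℝ) = 0 := by
          rw [h3, Rat.cast_zero]
        push_cast at h4
        simp only [mul_sub] at h4
        rw [Finset.sum_sub_distrib] at h4
        linarith) j i i'
    apply hw0
    have h3 : w ⟨j, i⟩ = w ⟨j, i'⟩ := by exact_mod_cast h2
    have h4 : ∀ x : Co r, ∑ s, w s * ((Pi.single x 1 : Co r → ℤ) s : ℚ) = w x := by
      intro x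
      rw [Finset.sum_eq_single x (fun s _ hs => by rw [Pi.single_eq_of_ne hs]; simp)
        (fun h => absurd (Finset.mem_univ _) h), Pi.single_eq_same]
      simp
    have h5 : ∑ s, w s * (((Pi.single ⟨j, i⟩ 1 - Pi.single ⟨j, i'⟩ 1 : Co r → ℤ) s : ℤ) : ℚ) =
        (∑ s, w s * ((Pi.single ⟨j, i⟩ 1 : Co r → ℤ) s : ℚ)) -
          ∑ s, w s * ((Pi.single ⟨j, i'⟩ 1 : Co r → ℤ) s : ℚ) := by
      rw [← Finset.sum_sub_distrib]
      refine Finset.sum_congr rfl fun s _ => ?_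
      rw [Pi.sub_apply]
      push_cast
      ring
    rw [h5, h4, h4, h3, sub_self]
  choose N hN1 hN using h1
  refine ⟨∏ x, N x, Nat.succ_le_of_lt (Finset.prod_pos fun x _ => hN1 x), fun j i i' => ?_⟩
  obtain ⟨M, hM⟩ := Finset.dvd_prod_of_mem N (Finset.mem_univ (⟨j, i, i'⟩ :
    Σ j : Fin c, Fin (r j + 1) × Fin (r j + 1)))
  rw [hM, mul_comm, mul_smul]
  exact nsmul_mem (hN _) M

/-- a character which is one on a set is one on the group generated by it -/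
theorem char_closure {A : Set (Co r → ℤ)} (χ : Co r → ℂˣ) (h : ∀ x ∈ A, ∏ s, χ s ^ x s = 1)
    {x : Co r → ℤ} (hx : x ∈ AddSubgroup.closure A) : ∏ s, χ s ^ x s = 1 := by
  induction hx using AddSubgroup.closure_induction with
  | mem x hx => exact h x hx
  | zero => simp
  | add x y _ _ hx hy =>
    simp only [Pi.add_apply, zpow_add]
    rw [Finset.prod_mul_distrib, hx, hy, mul_one]
  | neg x _ hx =>
    simp only [Pi.neg_apply, zpow_neg]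
    rw [Finset.prod_inv_distrib, hx, inv_one]

/-- **The characters are roots of unity.** -/
theorem chi_root (hΓ : IsFlatQuotient Γ) (hρ : IsRamification Γ ρ σ l)
    (hβ : IsEffective β k) (hL : IsLogPluricanonical L m ρ σ l β k) (hH : IsHermitian H)
    (hn : IsNefForm H) (hd : ∀ j, 0 ≤ L.deg j) (hm : 1 ≤ m) (hklt : IsKlt m ρ σ β) :
    ∃ N : ℕ, 1 ≤ N ∧ ∀ ι : ∀ j, Fin (r j + 1), IsPot (secL L ι) H f →
      ∀ b ∈ latt (GD Γ), b ∈ KN (GD Γ) (ker hH) → chi (secL L ι) f b ^ N = 1 := by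
  classical
  have hk : ∀ j, m * (l j + (r j + 1)) ≤ k j := fun j => by
    have h1 := hL.deg j
    have h2 := hd j
    have h3 : ((m * (l j + (r j + 1)) : ℕ) : ℤ) ≤ k j := by
      push_cast
      linarith
    exact_mod_cast h3
  obtain ⟨N, hN1, hN⟩ := exists_N hρ.holo hβ hρ.homog hρ.rne hρ.ne_zero hm
    hklt hk
  refine ⟨N, hN1, fun ι hpot b hb hbK => ?_⟩
  obtain ⟨v1, hv1⟩ := hβ.ne_zero
  obtain ⟨I0, hI0⟩ := MvPolynomial.support_nonempty.2 hv1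
  obtain ⟨J0, hJ0⟩ := MvPolynomial.support_nonempty.2 hρ.ne_zero
  obtain ⟨a, ha'⟩ := inv_diag hρ (tr b hb)
  obtain ⟨χ, hχ⟩ : ∃ χ, χ = chiOf (tr b hb) := ⟨_, rfl⟩
  have hval : ∀ I : Co r →₀ ℕ, (∃ v, coeff I (β v) ≠ 0) →
      (∏ s, (chiOf (tr b hb) s : ℂ) ^ I s)⁻¹ * (∏ s, (chiOf (tr b hb) s : ℂ)) ^ m * a ^ m *
        (∏ j, (chiOf (tr b hb) ⟨j, ι j⟩ : ℂ) ^ L.deg j) * chi (secL L ι) f b = 1 :=
    fun I hI => chi_value hΓ hρ hβ hL hH hn ι hpot hI hb hbK ha'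
  rw [← hχ] at ha' hval
  have hne : ∀ I : Co r →₀ ℕ, ∏ s, (χ s : ℂ) ^ I s ≠ 0 := fun I =>
    Finset.prod_ne_zero_iff.2 fun s _ => pow_ne_zero _ (Units.ne_zero _)
  have hEq : ∀ I I' : Co r →₀ ℕ, ∏ s, (χ s : ℂ) ^ I s = ∏ s, (χ s : ℂ) ^ I' s →
      ∏ s, χ s ^ ((I s : ℤ) - I' s) = 1 := by
    intro I I' h
    apply Units.ext
    rw [Units.coe_prod, Units.val_one]
    have h1 : ∀ s, ((χ s ^ ((I s : ℤ) - I' s) : ℂˣ) : ℂ) = (χ s : ℂ) ^ I s * ((χ s : ℂ) ^ I' s)⁻¹ := by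
      intro s
      rw [Units.val_zpow_eq_zpow_val, zpow_sub₀ (Units.ne_zero _), zpow_natCast, zpow_natCast,
        div_eq_mul_inv]
    rw [Finset.prod_congr rfl fun s _ => h1 s, Finset.prod_mul_distrib, Finset.prod_inv_distrib, h]
    exact mul_inv_cancel₀ (hne I')
  have hone : ∀ x ∈ Dif β σ, ∏ s, χ s ^ x s = 1 := by
    rintro x (⟨I, I', hI, hI', rfl⟩ | ⟨J, hJ, J', hJ', rfl⟩)
    · refine hEq I I' ?_
      have h1 := hval I hI
      have h2 := hval I' hI'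
      rw [← h2] at h1
      have h3 : (∏ s, (χ s : ℂ)) ^ m * a ^ m * (∏ j, (χ ⟨j, ι j⟩ : ℂ) ^ L.deg j) *
          chi (secL L ι) f b ≠ 0 := by
        intro h0
        have h4 : (∏ s, (χ s : ℂ) ^ I s)⁻¹ * ((∏ s, (χ s : ℂ)) ^ m * a ^ m *
          (∏ j, (χ ⟨j, ι j⟩ : ℂ) ^ L.deg j) * chi (secL L ι) f b) = 1 := by
          rw [← hval I hI]
          ring
        rw [h0, mul_zero] at h4
        exact zero_ne_one h4
      have h4 : (∏ s, (χ s : ℂ) ^ I s)⁻¹ * ((∏ s, (χ s : ℂ)) ^ m * a ^ m *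
          (∏ j, (χ ⟨j, ι j⟩ : ℂ) ^ L.deg j) * chi (secL L ι) f b) =
          (∏ s, (χ s : ℂ) ^ I' s)⁻¹ * ((∏ s, (χ s : ℂ)) ^ m * a ^ m *
          (∏ j, (χ ⟨j, ι j⟩ : ℂ) ^ L.deg j) * chi (secL L ι) f b) := by
        linear_combination h1
      exact inv_injective (mul_right_cancel₀ h3 h4)
    · refine hEq J J' ?_
      rw [coeff_sigma ha' hJ, coeff_sigma ha' hJ']
  -- the powers are equal on the blocks
  have hpow : ∀ j (i i' : Fin (r j + 1)), (χ ⟨j, i⟩ : ℂ) ^ N = (χ ⟨j, i'⟩ : ℂ) ^ N := by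
    intro j i i'
    have h1 := char_closure χ hone (hN j i i')
    have h2 : ∀ x : Co r, ∏ s, χ s ^ (N * (Pi.single x 1 : Co r → ℤ) s) = χ x ^ N := by
      intro x
      rw [Finset.prod_eq_single x (fun s _ hs => by rw [Pi.single_eq_of_ne hs, mul_zero, zpow_zero])
        (fun h => absurd (Finset.mem_univ _) h), Pi.single_eq_same, mul_one, zpow_natCast]
    have h3 : ∏ s, χ s ^ ((N • (Pi.single ⟨j, i⟩ 1 - Pi.single ⟨j, i'⟩ 1 : Co r → ℤ)) s) =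
        χ ⟨j, i⟩ ^ N * (χ ⟨j, i'⟩ ^ N)⁻¹ := by
      rw [← h2 ⟨j, i⟩, ← h2 ⟨j, i'⟩, ← Finset.prod_inv_distrib, ← Finset.prod_mul_distrib]
      refine Finset.prod_congr rfl fun s _ => ?_
      rw [Pi.smul_apply, Pi.sub_apply, nsmul_eq_mul, mul_sub, zpow_sub]
    rw [h3, mul_inv_eq_one] at h1
    have h4 := congrArg (Units.val) h1
    rwa [Units.val_pow_eq_pow_val, Units.val_pow_eq_pow_val] at h4
  obtain ⟨ν, hν⟩ : ∃ ν : Fin c → ℂ, ∀ j, ν j = (χ ⟨j, ι j⟩ : ℂ) ^ N := ⟨_, fun _ => rfl⟩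
  have hν0 : ∀ j, ν j ≠ 0 := fun j => by
    rw [hν]
    exact pow_ne_zero _ (Units.ne_zero _)
  have hmon : ∀ (I : Co r →₀ ℕ) (e : Fin c → ℕ), (∀ j, ∑ i, I ⟨j, i⟩ = e j) →
      (∏ s, (χ s : ℂ) ^ I s) ^ N = ∏ j, ν j ^ e j := by
    intro I e hI
    rw [← Finset.prod_pow, Fintype.prod_sigma]
    refine Finset.prod_congr rfl fun j _ => ?_
    rw [← hI j, ← Finset.prod_pow_eq_pow_sum]
    refine Finset.prod_congr rfl fun i _ => ?_
    rw [hν, ← hpow j i (ι j), ← pow_mul, ← pow_mul, mul_comm]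
  have hall : (∏ s, (χ s : ℂ)) ^ N = ∏ j, ν j ^ (r j + 1) := by
    rw [← Finset.prod_pow, Fintype.prod_sigma]
    refine Finset.prod_congr rfl fun j _ => ?_
    rw [Finset.prod_congr rfl fun i _ => hpow j i (ι j), Finset.prod_const, Finset.card_univ,
      Fintype.card_fin, hν]
  have h1 := hval I0 ⟨v1, mem_support_iff.1 hI0⟩
  have h2 := congrArg (fun t => t ^ N) h1
  simp only [mul_pow, one_pow] at h2
  rw [inv_pow, hmon I0 k (hβ.homog v1 I0 hI0), ← pow_mul, mul_comm m N, pow_mul _ N m, hall,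
    ← coeff_sigma ha' hJ0, ← pow_mul, mul_comm m N, pow_mul _ N m,
    hmon J0 l (hρ.homog J0 hJ0)] at h2
  have h3 : (∏ j, (χ ⟨j, ι j⟩ : ℂ) ^ L.deg j) ^ N = ∏ j, ν j ^ L.deg j := by
    rw [← Finset.prod_pow]
    refine Finset.prod_congr rfl fun j _ => ?_
    rw [hν, ← zpow_natCast, ← zpow_natCast, ← zpow_mul, ← zpow_mul, mul_comm]
  rw [h3] at h2
  have h4 : (∏ j, ν j ^ k j)⁻¹ * (∏ j, ν j ^ (r j + 1)) ^ m * (∏ j, ν j ^ l j) ^ m *
      (∏ j, ν j ^ L.deg j) = 1 := by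
    rw [← Finset.prod_inv_distrib, ← Finset.prod_pow, ← Finset.prod_pow, ← Finset.prod_mul_distrib,
      ← Finset.prod_mul_distrib, ← Finset.prod_mul_distrib]
    refine Finset.prod_eq_one fun j _ => ?_
    rw [← zpow_natCast (ν j) (k j), ← zpow_natCast (ν j) (r j + 1), ← zpow_natCast (ν j) (l j),
      ← zpow_natCast _ m, ← zpow_natCast _ m, ← zpow_mul, ← zpow_mul, ← zpow_neg,
      ← zpow_add₀ (hν0 j), ← zpow_add₀ (hν0 j), ← zpow_add₀ (hν0 j)]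
    have h5 := hL.deg j
    have h6 : -(k j : ℤ) + ((r j + 1 : ℕ) : ℤ) * m + (l j : ℤ) * m + L.deg j = 0 := by
      push_cast
      linarith
    rw [h6, zpow_zero]
  rw [h4, one_mul] at h2
  exact h2

end Pool.Agent.T2H08.FQ
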