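import Pool.Agent.T2H08.FQ.Norm
import Pool.Agent.T2H08.FQ.Root

/-!
# Base point free powers
-/

set_option autoImplicit false

namespace Pool.Agent.T2H08.FQ

open Pool.Agent.W594.SYZ2 Pool.Agent.W594.SYZ2.TQ Pool.Agent.TH735.AQ MvPolynomial

variable {n c : ℕ} {r : Fin c → ℕ} {Γ : Subgroup (Grp n r)}

variable {L : LineBundle Γ} {ρ : (Fin n → ℂ) → ℂ} {σ : MvPolynomial (Co r) ℂ} {l k : Fin c → ℕ}
  {β : (Fin n → ℂ) → MvPolynomial (Co r) ℂ} {m : ℕ} {H : (Fin n → ℂ) → (Fin n → ℂ) → ℂ}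

/-- a section of the restriction gives a section for the diagonal elements -/
theorem lift_section (hd : ∀ j, 0 ≤ L.deg j) (ι : ∀ j, Fin (r j + 1)) {K : ℕ}
    {θ : (Fin n → ℂ) → ℂ} (hθ : ((secL L ι).pow K).IsSection θ) :
    (fun p : (Fin n → ℂ) × (Co r → ℂ) =>
      θ p.1 * (∏ j, p.2 ⟨j, ι j⟩ ^ (L.deg j).toNat) ^ K) ∈ SecD L K := by
  have hz : ∀ (a : ℂ) (j : Fin c), a ^ (L.deg j).toNat = a ^ L.deg j := by
    intro a j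
    rw [← zpow_natCast, Int.toNat_of_nonneg (hd j)]
  refine ⟨?_, ?_, ?_⟩
  · have h1 : Differentiable ℂ fun p : (Fin n → ℂ) × (Co r → ℂ) => θ p.1 :=
      hθ.holo.comp differentiable_fst
    have h2 : ∀ j, Differentiable ℂ fun p : (Fin n → ℂ) × (Co r → ℂ) =>
        p.2 ⟨j, ι j⟩ ^ (L.deg j).toNat := by
      intro j
      have h3 : Differentiable ℂ fun p : (Fin n → ℂ) × (Co r → ℂ) => p.2 ⟨j, ι j⟩ :=
        ((ContinuousLinearMap.proj (R := ℂ) (φ := fun _ : Co r => ℂ)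
          (⟨j, ι j⟩ : Co r)).differentiable).comp differentiable_snd
      exact h3.pow _
    exact h1.mul ((differentiable_prod Finset.univ _ h2).pow K)
  · intro μ v z
    change θ v * (∏ j, scal μ z ⟨j, ι j⟩ ^ (L.deg j).toNat) ^ K =
      (∏ j, (μ j : ℂ) ^ L.deg j) ^ K * (θ v * (∏ j, z ⟨j, ι j⟩ ^ (L.deg j).toNat) ^ K)
    have h1 : ∏ j, scal μ z ⟨j, ι j⟩ ^ (L.deg j).toNat =
        (∏ j, (μ j : ℂ) ^ L.deg j) * ∏ j, z ⟨j, ι j⟩ ^ (L.deg j).toNat := by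
      rw [← Finset.prod_mul_distrib]
      refine Finset.prod_congr rfl fun j _ => ?_
      rw [scal_apply, mul_pow, hz (μ j : ℂ)]
    rw [h1, mul_pow]
    ring
  · rintro ⟨⟨γ, A⟩, hg⟩ ⟨χ, hχ⟩ ⟨v, z⟩
    have hχ' : diag χ = A := hχ
    subst hχ'
    have h0 : γ ∈ GD Γ := mem_GD.2 ⟨χ, hg⟩
    change θ (γ v) * (∏ j, diag χ z ⟨j, ι j⟩ ^ (L.deg j).toNat) ^ K =
      L.e ⟨(γ, diag χ), hg⟩ v ^ K * (θ v * (∏ j, z ⟨j, ι j⟩ ^ (L.deg j).toNat) ^ K)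
    have h1 := hθ.eq ⟨γ, h0⟩ v
    have h2 := secL_e L ι ⟨γ, h0⟩ hg v
    have h3 : θ (γ v) = (L.e ⟨(γ, diag χ), hg⟩ v *
        (∏ j, (χ ⟨j, ι j⟩ : ℂ) ^ L.deg j)⁻¹) ^ K * θ v := by
      rw [← h2]
      exact h1
    have h4 : ∏ j, diag χ z ⟨j, ι j⟩ ^ (L.deg j).toNat =
        (∏ j, (χ ⟨j, ι j⟩ : ℂ) ^ L.deg j) * ∏ j, z ⟨j, ι j⟩ ^ (L.deg j).toNat := by
      rw [← Finset.prod_mul_distrib]
      refine Finset.prod_congr rfl fun j _ => ?_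
      rw [diag_apply, mul_pow, hz (χ ⟨j, ι j⟩ : ℂ)]
    have h5 : ∏ j, (χ ⟨j, ι j⟩ : ℂ) ^ L.deg j ≠ 0 :=
      Finset.prod_ne_zero_iff.2 fun j _ => zpow_ne_zero _ (Units.ne_zero _)
    rw [h3, h4]
    have h6 : (∏ j, (χ ⟨j, ι j⟩ : ℂ) ^ L.deg j)⁻¹ ^ K * (∏ j, (χ ⟨j, ι j⟩ : ℂ) ^ L.deg j) ^ K = 1 := by
      rw [← mul_pow, inv_mul_cancel₀ h5, one_pow]
    rw [mul_pow, mul_pow]
    linear_combination (L.e ⟨(γ, diag χ), hg⟩ v ^ K * θ v *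
      (∏ j, z ⟨j, ι j⟩ ^ (L.deg j).toNat) ^ K) * h6

/-- **Base point freeness on flat quotients.** -/
theorem semiample (hΓ : IsFlatQuotient Γ) (hρ : IsRamification Γ ρ σ l)
    (hm : 1 ≤ m) (hβ : IsEffective β k) (hL : IsLogPluricanonical L m ρ σ l β k)
    (hklt : IsKlt m ρ σ β) (hc : L.IsChernForm H) (hn : L.IsNef H) : L.IsSemiample := by
  classical
  obtain ⟨hH, f, hf, hpot⟩ := hc
  have hG := torus_GD hΓ
  have hP : ∀ ι : ∀ j, Fin (r j + 1), IsPot (secL L ι) H f := secL_chern hΓ hf hpot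
  obtain ⟨N, hN1, hN⟩ := chi_root (f := f) hΓ hρ hβ hL hH hn.1 hn.2 hm hklt
  have h1 : ∀ ι : ∀ j, Fin (r j + 1), ∃ k : ℕ, 1 ≤ k ∧
      ∀ v, ∃ s, ((secL L ι).pow k).IsSection s ∧ s v ≠ 0 := by
    intro ι
    obtain ⟨N', hN1', hN'⟩ := root_of_fixed hG hH (hP ι) hN1 (hN ι (hP ι))
    exact free_of_root hG hH (hP ι) hn.1 hN1' hN'
  choose κ hκ1 hκ using h1
  refine semiample_of_secD hΓ (K := ∏ ι, κ ι)
    (Nat.succ_le_of_lt (Finset.prod_pos fun ι _ => hκ1 ι)) ?_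
  rintro ⟨v, z⟩ hz
  choose ι hι using hz
  obtain ⟨θ, hθ, hθ0⟩ := hκ ι v
  obtain ⟨M, hM⟩ := Finset.dvd_prod_of_mem κ (Finset.mem_univ ι)
  have h2 : ((secL L ι).pow (∏ ι, κ ι)).IsSection fun v => θ v ^ M := by
    refine ⟨hθ.holo.pow M, fun γ w => ?_⟩
    have h3 : θ ((γ : (Fin n → ℂ) ≃ᵃ[ℂ] (Fin n → ℂ)) w) = (secL L ι).e γ w ^ κ ι * θ w :=
      hθ.eq γ w
    change θ ((γ : (Fin n → ℂ) ≃ᵃ[ℂ] (Fin n → ℂ)) w) ^ M =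
      (secL L ι).e γ w ^ (∏ ι, κ ι) * θ w ^ M
    rw [h3, hM, pow_mul, mul_pow]
  refine ⟨_, lift_section hn.2 ι h2, ?_⟩
  refine mul_ne_zero (pow_ne_zero _ hθ0) (pow_ne_zero _ ?_)
  exact Finset.prod_ne_zero_iff.2 fun j _ => pow_ne_zero _ (hι j)

end Pool.Agent.T2H08.FQ
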