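import Pool.Agent.T2H08.FQ.Stmt
import Pool.Agent.T2H08.FQ.Free

/-!
# The theorem for the definitions of the statement
-/

set_option autoImplicit false

namespace Pool.Agent.T2H08.FB

open MvPolynomial Pool.Agent.W594.SYZ2

variable {n c : ℕ} {r : Fin c → ℕ}

/-- the same group -/
def conv (Γ : Subgroup (Trans n r)) : Subgroup (FQ.Grp n r) := Γ

theorem mem_conv {Γ : Subgroup (Trans n r)} {g : FQ.Grp n r} : g ∈ conv Γ ↔ g ∈ Γ := Iff.rfl

theorem scal_eq (μ : Fin c → ℂˣ) (z : Co r → ℂ) : FQ.scal μ z = mulBy μ z := rfl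

theorem exists_scal {A : (Co r → ℂ) ≃ₗ[ℂ] (Co r → ℂ)}
    (h : ∀ z, ∃ μ : Fin c → ℂˣ, A z = mulBy μ z) : ∃ μ : Fin c → ℂˣ, A = FQ.scal μ := by
  classical
  obtain ⟨μ, hμ⟩ := h fun _ => 1
  refine ⟨μ, ?_⟩
  have h1 : ∀ s : Co r, ∃ d : ℂ, A (Pi.single s 1) = d • (Pi.single s 1 : Co r → ℂ) := by
    intro s
    obtain ⟨ν, hν⟩ := h (Pi.single s 1)
    refine ⟨ν s.1, ?_⟩
    rw [hν]
    funext t
    by_cases ht : t = s
    · subst ht
      rfl
    · change (ν t.1 : ℂ) * (Pi.single s 1 : Co r → ℂ) t = _ * (Pi.single s 1 : Co r → ℂ) t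
      rw [Pi.single_eq_of_ne ht, mul_zero, mul_zero]
  choose d hd using h1
  have h2 : ∀ z : Co r → ℂ, A z = fun s => d s * z s := by
    intro z
    have h3 : z = ∑ s, z s • (Pi.single s 1 : Co r → ℂ) := by
      rw [← pi_eq_sum_univ' z]
    conv_lhs => rw [h3]
    rw [map_sum]
    funext t
    rw [Finset.sum_apply, Finset.sum_eq_single t]
    · rw [map_smul, hd, Pi.smul_apply, Pi.smul_apply, Pi.single_eq_same, smul_eq_mul, smul_eq_mul,
        mul_one, mul_comm]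
    · intro s _ hs
      rw [map_smul, hd, Pi.smul_apply, Pi.smul_apply, Pi.single_eq_of_ne (Ne.symm hs), smul_zero,
        smul_zero]
    · intro h
      exact absurd (Finset.mem_univ _) h
  have h3 : ∀ s, d s = μ s.1 := by
    intro s
    have h4 := congrFun hμ s
    rw [h2] at h4
    change d s * 1 = (μ s.1 : ℂ) * 1 at h4
    rwa [mul_one, mul_one] at h4
  apply LinearEquiv.ext
  intro z
  rw [h2]
  funext s
  rw [h3]
  rfl

theorem flat_conv {Γ : Subgroup (Trans n r)} (h : IsFlatQuotient Γ) :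
    FQ.IsFlatQuotient (conv Γ) := by
  have hsub : (latt (FQ.GA (conv Γ)) : Set (Fin n → ℂ)) ⊆ translations Γ := by
    intro b hb
    obtain ⟨A, hA⟩ := FQ.mem_GA.1 (mem_latt.1 hb)
    exact ⟨_, hA, fun v => rfl⟩
  have hsup : translations Γ ⊆ (latt (FQ.GA (conv Γ)) : Set (Fin n → ℂ)) := by
    rintro b ⟨g, hg, hb⟩
    refine mem_latt.2 (FQ.mem_GA.2 ⟨g.2, ?_⟩)
    have h1 : ((AffineEquiv.constVAdd ℂ (Fin n → ℂ) b, g.2) : FQ.Grp n r) = g := by
      refine Prod.ext (AffineEquiv.ext fun v => ?_) rfl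
      exact (hb v).symm
    rw [h1]
    exact hg
  refine ⟨h.unitary, fun μ hμ => ?_, ⟨?_, ?_, ?_⟩, ?_⟩
  · obtain ⟨g, hg, h1, h2⟩ := h.scalar μ hμ
    have h3 : ((1, FQ.scal μ) : FQ.Grp n r) = g := by
      refine Prod.ext (AffineEquiv.ext fun v => ?_) (LinearEquiv.ext fun z => ?_)
      · exact (h1 v).symm
      · exact (h2 z).symm
    rw [h3]
    exact hg
  · have h1 : DiscreteTopology (translations Γ) := h.discrete
    exact DiscreteTopology.of_subset h1 hsub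
  · rw [eq_top_iff, ← h.span_top]
    exact Submodule.span_mono hsup
  · have h1 := h.finite_linear
    have h2 : Function.Injective fun (A : (Fin n → ℂ) ≃ₗ[ℂ] (Fin n → ℂ)) =>
        (fun v => A v : (Fin n → ℂ) → (Fin n → ℂ)) := fun A B hAB =>
      LinearEquiv.ext fun v => congrFun hAB v
    refine (h1.preimage (h2.injOn)).subset ?_
    rintro A ⟨γ, hγ, rfl⟩
    obtain ⟨B, hB⟩ := FQ.mem_GA.1 hγ
    refine ⟨_, hB, fun v => ?_⟩
    change γ.linear v = γ v - γ 0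
    have h3 := γ.map_vadd 0 v
    rw [vadd_eq_add, vadd_eq_add, add_zero] at h3
    rw [h3, add_sub_cancel_right]
  · obtain ⟨D, hD, hD'⟩ := h.diagonal
    have h1 : conv D ≤ FQ.Diags n r := by
      intro g hg
      obtain ⟨χ, hχ⟩ := hD' g hg
      exact ⟨χ, LinearEquiv.ext fun z => funext fun s => (hχ z s).symm⟩
    have h2 : (FQ.Diags n r).relIndex (conv Γ) ∣ (conv D).relIndex (conv Γ) :=
      Subgroup.relIndex_dvd_of_le_left _ h1
    intro h3
    rw [h3, zero_dvd_iff] at h2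
    exact hD h2

theorem homog_conv {k : Fin c → ℕ} {p : MvPolynomial (Co r) ℂ} (h : IsHomog k p) :
    FQ.IsHomog k p := fun I hI => h I (mem_support_iff.1 hI)

theorem lin_eq (a v : Fin n → ℂ) :
    lin a v = (∑ i, a i • (LinearMap.proj i : (Fin n → ℂ) →ₗ[ℂ] ℂ)) v := by
  unfold lin
  rw [LinearMap.sum_apply]
  rfl

theorem ram_conv {Γ : Subgroup (Trans n r)} {ρ : (Fin n → ℂ) → ℂ} {σ : MvPolynomial (Co r) ℂ}
    {l : Fin c → ℕ} (h : IsRamification Γ ρ σ l) : FQ.IsRamification (conv Γ) ρ σ l := by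
  classical
  refine ⟨h.holo, h.rho_ne_zero, fun v => ?_, h.ne_zero, homog_conv h.homog, h.inv⟩
  rw [h.rho_zero]
  constructor
  · rintro ⟨g, hg, ⟨w, hw⟩, a, ha, hfix⟩
    have h1 : ∀ z, ∃ μ : Fin c → ℂˣ, g.2 z = mulBy μ z := fun z => (hfix v z rfl).2
    obtain ⟨μ, hμ⟩ := exists_scal h1
    refine ⟨g.1, FQ.mem_GV.2 ⟨μ, ?_⟩, ?_, ∑ i, a i • (LinearMap.proj i : (Fin n → ℂ) →ₗ[ℂ] ℂ),
      ?_, ?_⟩
    · have h2 : ((g.1, FQ.scal μ) : FQ.Grp n r) = g := Prod.ext rfl hμ.symm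
      rw [h2]
      exact hg
    · intro h2
      apply hw
      change g.1 w = w
      rw [h2]
      rfl
    · intro h2
      apply ha
      funext i
      have h3 := lin_eq a (Pi.single i 1)
      rw [h2] at h3
      unfold lin at h3
      rw [Finset.sum_eq_single i] at h3
      · rw [Pi.single_eq_same, mul_one] at h3
        exact h3
      · intro j _ hj
        rw [Pi.single_eq_of_ne hj, mul_zero]
      · intro h
        exact absurd (Finset.mem_univ _) h
    · intro u hu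
      rw [← lin_eq, ← lin_eq] at hu
      exact (hfix u 0 hu).1
  · rintro ⟨γ, hγ, hne, ℓ, hℓ, hfix⟩
    obtain ⟨μ, hμ⟩ := FQ.mem_GV.1 hγ
    have h1 : ∀ u, lin (fun i => ℓ (Pi.single i 1)) u = ℓ u := by
      intro u
      unfold lin
      have h3 : u = ∑ s, u s • (Pi.single s 1 : Fin n → ℂ) := by
        rw [← pi_eq_sum_univ' u]
      conv_rhs => rw [h3, map_sum]
      refine Finset.sum_congr rfl fun i _ => ?_
      rw [map_smul, smul_eq_mul, mul_comm]
    refine ⟨((γ, FQ.scal μ) : FQ.Grp n r), hμ, ?_, fun i => ℓ (Pi.single i 1), ?_, ?_⟩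
    · by_contra hcon
      push Not at hcon
      exact hne (AffineEquiv.ext fun w => hcon w)
    · intro h2
      apply hℓ
      refine LinearMap.ext fun u => ?_
      rw [← h1 u, h2]
      unfold lin
      simp
    · intro u z hu
      rw [h1, h1] at hu
      exact ⟨hfix u hu, μ, rfl⟩

/-- the line bundle -/
def lb {Γ : Subgroup (Trans n r)} (L : LineBundle Γ) : FQ.LineBundle (conv Γ) where
  deg := L.deg
  e := fun g => L.e g.1
  holo := fun g => L.holo g.1 g.2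
  ne_zero := fun g => L.ne_zero g.1 g.2
  mul := fun g h v => L.mul g.1 g.2 h.1 h.2 v
  stab := fun g v z μ hz h1 h2 => L.stab g.1 g.2 v z μ hz h1 h2

/-- **Base point freeness on flat quotients.** -/
theorem semiample {Γ : Subgroup (Trans n r)} (hΓ : IsFlatQuotient Γ)
    {ρ : (Fin n → ℂ) → ℂ} {σ : MvPolynomial (Co r) ℂ} {l : Fin c → ℕ}
    (hρ : IsRamification Γ ρ σ l) {m : ℕ} (hm : 1 ≤ m)
    {β : (Fin n → ℂ) → MvPolynomial (Co r) ℂ} {k : Fin c → ℕ} (hβ : IsEffective β k)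
    {L : LineBundle Γ} (hL : IsLogPluricanonical L m ρ σ l β k) (hklt : IsKlt m ρ σ β)
    {H : (Fin n → ℂ) → (Fin n → ℂ) → ℂ} (hc : L.IsChernForm H) (hn : L.IsNef H) :
    L.IsSemiample := by
  have h1 : FQ.IsEffective β k := ⟨hβ.holo, fun v => homog_conv (hβ.homog v), hβ.ne_zero⟩
  have h2 : FQ.IsLogPluricanonical (lb L) m ρ σ l β k := ⟨hL.deg, fun g v z => hL.eq g.1 g.2 v z⟩
  have h3 : (lb L).IsChernForm H := by
    obtain ⟨hH, f, hf, h⟩ := hc
    exact ⟨hH, f, hf, fun g v => h g.1 g.2 v⟩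
  obtain ⟨M, hM, h⟩ := FQ.semiample (flat_conv hΓ) (ram_conv hρ) hm h1 h2 hklt h3 hn
  refine ⟨M, hM, fun v z hz => ?_⟩
  obtain ⟨s, hs, h0⟩ := h v z hz
  exact ⟨fun v z => s (v, z), ⟨hs.holo, hs.homog, fun g hg v z => hs.eq ⟨g, hg⟩ v z⟩, h0⟩

end Pool.Agent.T2H08.FB
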