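import Pool.Agent.TH735.AQ.Mero
import Pool.Agent.R800.UB.Amp

/-!
# Characters on the lattice vectors in the kernel of the Chern form
-/

set_option autoImplicit false

namespace Pool.Agent.T2H08.FQ

open Pool.Agent.W594.SYZ2 Pool.Agent.W594.SYZ2.TQ Pool.Agent.TH735.AQ

section

variable {V : Type*} [NormedAddCommGroup V] [NormedSpace ℂ V] [FiniteDimensional ℂ V]
  {G G' : Subgroup (V ≃ᵃ[ℂ] V)} {M : LineBundle G} {H : V → V → ℂ} {f : V → ℂ}

/-- Translations by vectors fixed by `NK` preserve the complement of the mirrors. -/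
theorem not_onMirror' (hGG : G' ≤ G) (hH : IsHermitian H) (hF : IsPot M H f) {v₀ x : V}
    (hv : ¬ OnMirror G' v₀) (hx : x ∈ KN G (ker hH)) : ¬ OnMirror G' (v₀ + x) := by
  rintro ⟨γ, hγ, hne, ℓ, hℓ, hfix⟩
  have hℓx : ℓ x = 0 := by
    by_contra hℓx
    apply hne
    have h0 : γ (v₀ + x) = v₀ + x := hfix _ rfl
    have hlin : ∀ w, ℓ w = 0 → γ.linear w = w := by
      intro w hw
      have h1 : γ (v₀ + x + w) = v₀ + x + w := hfix _ (by rw [map_add, hw, add_zero])
      have h2 : γ (v₀ + x + w) = γ.linear w + γ (v₀ + x) := by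
        rw [act γ (v₀ + x + w), act γ (v₀ + x), map_add]
        abel
      rw [h2, h0, add_comm] at h1
      exact add_left_cancel h1
    have hdec : ∀ v, γ.linear v - v = (ℓ v / ℓ x) • (γ.linear x - x) := by
      intro v
      have h1 := hlin (v - (ℓ v / ℓ x) • x) (by
        rw [map_sub, map_smul, smul_eq_mul, div_mul_cancel₀ _ hℓx, sub_self])
      rw [map_sub, map_smul] at h1
      rw [smul_sub]
      have h2 : γ.linear v = v - (ℓ v / ℓ x) • x + (ℓ v / ℓ x) • γ.linear x := by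
        rw [← h1]
        abel
      rw [h2]
      abel
    let g : Lin G := ⟨γ.linear, γ, hGG hγ, rfl⟩
    have hgN : g ∈ NK G (ker hH) := by
      intro v
      change γ.linear v - v ∈ ker hH
      rw [hdec v]
      exact (ker hH).smul_mem _ ((ker hH).sub_mem (ker_inv hH hF ⟨γ, hGG hγ⟩ hx.1) hx.1)
    have hgx : γ.linear x = x := hx.2 g hgN
    have hid : ∀ v, γ.linear v = v := by
      intro v
      have h1 := hdec v
      rw [hgx, sub_self, smul_zero, sub_eq_zero] at h1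
      exact h1
    apply AffineEquiv.ext
    intro v
    have h1 : γ v = γ.linear (v - (v₀ + x)) + γ (v₀ + x) := by
      rw [act γ v, act γ (v₀ + x), map_sub]
      abel
    rw [h1, hid, h0, sub_add_cancel]
    rfl
  exact hv ⟨γ, hγ, hne, ℓ, hℓ, fun w hw => hfix w (by rw [hw, map_add, hℓx, add_zero])⟩

/-- The lattice vectors in `KN` span it; averaging maps the lattice vectors in the kernel to it. -/
theorem span_KN (hG : IsTorusQuotient G) (hH : IsHermitian H) (hpot : IsPot M H f)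
    (hn : IsNefForm H) (x : V) (hx : x ∈ KN G (ker hH)) :
    x ∈ Submodule.span ℝ {b | b ∈ latt G ∧ b ∈ KN G (ker hH)} := by
  classical
  obtain ⟨k, P, -, -, n, Δ, π, hker, hfib, -⟩ := numerical hG ⟨hH, f, hpot.1, hpot.2⟩ hn
  have : FiniteDimensional ℝ V := FiniteDimensional.complexToReal V
  have := finite_Lin hG
  have : Fintype (Lin G) := Fintype.ofFinite _
  -- the lattice vectors in `K` span `K`
  let T : AddSubgroup (Fin n → ℂ) := (latt G).map π.toAddMonoidHom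
  have hT : (T : Set (Fin n → ℂ)) ⊆ (latt Δ : Set (Fin n → ℂ)) := by
    rintro _ ⟨b, hb, rfl⟩
    obtain ⟨δ, hδ, h⟩ := hfib.maps _ (mem_latt.1 hb)
    change AffineEquiv.constVAdd ℂ (Fin n → ℂ) (π b) ∈ Δ
    have h1 : AffineEquiv.constVAdd ℂ (Fin n → ℂ) (π b) = δ := by
      apply AffineEquiv.ext
      intro w
      obtain ⟨v, rfl⟩ := hfib.surj w
      rw [h v]
      change π b + π v = π (b + v)
      rw [map_add]
    rw [h1]
    exact hδ
  have hTd : DiscreteTopology T := by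
    have h1 : DiscreteTopology (latt Δ : Set (Fin n → ℂ)) := hfib.base.discrete
    exact DiscreteTopology.of_subset h1 hT
  have hsp := span_ker (V := V) (W := Fin n → ℂ) (latt G) hG.discrete hG.span_top T hTd
    (π.restrictScalars ℝ) hfib.surj (fun w => Iff.rfl)
  let K : Submodule ℂ V := KN G (ker hH)
  let Ns : Finset (Lin G) := Finset.univ.filter (· ∈ NK G (ker hH))
  have hNs : 1 ≤ Ns.card := Finset.card_pos.2 ⟨1, by
    rw [Finset.mem_filter]
    exact ⟨Finset.mem_univ _, (NK G (ker hH)).one_mem⟩⟩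
  let A : V →ₗ[ℝ] V := ∑ g ∈ Ns, ((g.1 : V →ₗ[ℂ] V).restrictScalars ℝ)
  have hA : ∀ v, A v = ∑ g ∈ Ns, g.1 v := by
    intro v
    simp only [A, LinearMap.sum_apply]
    rfl
  have hAK : ∀ b ∈ latt G, b ∈ ker hH → A b ∈ latt G ∧ A b ∈ K := by
    intro b hb hbK
    rw [hA]
    obtain ⟨h1, h2, -⟩ := chi_sum' hH hpot hb hbK Ns
    exact ⟨h1, h2, fun g hg => sum_fixed (ker hH) b g hg⟩
  have h1 : x ∈ Submodule.span ℝ {b | b ∈ latt G ∧ π b = 0} := by
    have h2 : x ∈ LinearMap.ker (π.restrictScalars ℝ) := (hker x).2 hx.1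
    rw [← hsp] at h2
    exact h2
  have h2 : A x ∈ Submodule.span ℝ {b | b ∈ latt G ∧ b ∈ K} := by
    have h3 : A x ∈ (Submodule.span ℝ {b | b ∈ latt G ∧ π b = 0}).map A :=
      Submodule.mem_map_of_mem h1
    rw [Submodule.map_span] at h3
    refine Submodule.span_mono ?_ h3
    rintro _ ⟨b, ⟨hb, hb0⟩, rfl⟩
    exact hAK b hb ((hker b).1 hb0)
  have h3 : A x = (Ns.card : ℝ) • x := by
    rw [hA, Finset.sum_congr rfl fun g hg => hx.2 g (Finset.mem_filter.1 hg).2,
      Finset.sum_const, ← Nat.cast_smul_eq_nsmul ℝ]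
  have h4 : x = ((Ns.card : ℝ)⁻¹) • A x := by
    rw [h3, smul_smul, inv_mul_cancel₀ (by positivity), one_smul]
  rw [h4]
  exact Submodule.smul_mem _ _ h2

/-- A character given by a meromorphic function with poles on the mirrors is trivial. -/
theorem kappa_one (hGG : G' ≤ G) (hG : IsTorusQuotient G) (hH : IsHermitian H)
    (hpot : IsPot M H f) (hn : IsNefForm H) {θ s : V → ℂ} (hθ : Differentiable ℂ θ)
    (hs : Differentiable ℂ s) {v₀ : V} (hv₀ : θ v₀ ≠ 0) (hmir : ¬ OnMirror G' v₀)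
    (hzero : ∀ v, s v = 0 → OnMirror G' v) {κ : V → ℂ}
    (hκ : ∀ b ∈ latt G, b ∈ KN G (ker hH) → ‖κ b‖ = 1)
    (heq : ∀ (b : V) (hb : b ∈ latt G), b ∈ KN G (ker hH) → ∀ v : V,
      θ (b + v) * s v = κ b * M.e (tr b hb) v * θ v * s (b + v)) :
    ∀ b ∈ latt G, b ∈ KN G (ker hH) → κ b * chi M f b = 1 := by
  classical
  have hF := hpot.1
  have hv₀' : s v₀ ≠ 0 := fun h => hmir (hzero v₀ h)
  have : FiniteDimensional ℝ V := FiniteDimensional.complexToReal V
  let K : Submodule ℂ V := KN G (ker hH)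
  have hspanV : ∀ x ∈ K, x ∈ Submodule.span ℝ {b | b ∈ latt G ∧ b ∈ K} :=
    fun x hx => span_KN hG hH hpot hn x hx
  let SK : AddSubgroup K := (latt G).comap K.subtype.toAddMonoidHom
  have hmap : (Submodule.span ℝ (SK : Set K)).map (K.subtype.restrictScalars ℝ)
      = Submodule.span ℝ {b | b ∈ latt G ∧ b ∈ K} := by
    rw [Submodule.map_span]
    congr 1
    ext x
    constructor
    · rintro ⟨y, hy, rfl⟩
      exact ⟨hy, y.2⟩
    · rintro ⟨hx, hx0⟩
      exact ⟨⟨x, hx0⟩, hx, rfl⟩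
  have hspan : Submodule.span ℝ (SK : Set K) = ⊤ := by
    rw [eq_top_iff]
    rintro ⟨x, hx⟩ -
    have h1 := hspanV x hx
    rw [← hmap] at h1
    obtain ⟨y, hy, hyx⟩ := h1
    have h2 : y = ⟨x, hx⟩ := Subtype.ext hyx
    rwa [← h2]
  have : ProperSpace K := FiniteDimensional.proper ℂ K
  have hsne : ∀ x : K, s (v₀ + x) ≠ 0 := fun x h =>
    not_onMirror' hGG hH hpot hmir x.2 (hzero _ h)
  let u : K → ℂ := fun x => θ (v₀ + x) / s (v₀ + x) * Complex.exp (-f (v₀ + x))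
  have hu : Differentiable ℂ u := by
    have h2 : Differentiable ℂ fun x : K => v₀ + (x : V) := K.subtypeL.differentiable.const_add v₀
    have h3 : Differentiable ℂ fun x : K => θ (v₀ + x) := hθ.comp h2
    have h4 : Differentiable ℂ fun x : K => (s (v₀ + x))⁻¹ :=
      Differentiable.inv (h := fun x : K => s (v₀ + x)) (hs.comp h2) hsne
    have h5 : Differentiable ℂ fun x : K => Complex.exp (-f (v₀ + x)) :=
      (Differentiable.neg (f := fun x : K => f (v₀ + x)) (hF.comp h2)).cexp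
    have h6 : u = fun x : K => θ (v₀ + x) * (s (v₀ + x))⁻¹ * Complex.exp (-f (v₀ + x)) := by
      funext x
      simp only [u, div_eq_mul_inv]
    rw [h6]
    exact (h3.mul h4).mul h5
  have hueq : ∀ (b : K) (_ : (b : V) ∈ latt G) (x : K), u (b + x) = κ b * chi M f b * u x := by
    intro b hb x
    have h1 := heq (b : V) hb b.2 (v₀ + x)
    have h2 := tw_tr_ker hH hpot hb b.2.1 (v₀ + (x : V))
    have hs1 : s ((b : V) + (v₀ + x)) ≠ 0 := by
      have := hsne (b + x)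
      rwa [Submodule.coe_add, add_left_comm] at this
    have hs2 := hsne x
    have h3 : θ ((b : V) + (v₀ + x)) / s ((b : V) + (v₀ + x))
        = κ b * M.e (tr (b : V) hb) (v₀ + x) * (θ (v₀ + x) / s (v₀ + x)) := by
      rw [div_eq_iff hs1, ← mul_div_assoc, div_mul_eq_mul_div, eq_div_iff hs2]
      exact h1
    simp only [u]
    rw [← h2, tw, tr_apply, Submodule.coe_add, add_left_comm v₀ (b : V) (x : V), h3]
    have h4 : Complex.exp (-f ((b : V) + (v₀ + x)))
        = Complex.exp (f (v₀ + x) - f ((b : V) + (v₀ + x))) * Complex.exp (-f (v₀ + x)) := by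
      rw [← Complex.exp_add]
      congr 1
      ring
    rw [h4]
    ring
  obtain ⟨C, hC⟩ := cobounded SK hspan
  have hbd : Bornology.IsBounded (Set.range u) := by
    have hK : IsCompact (Metric.closedBall (0 : K) C) := isCompact_closedBall _ _
    obtain ⟨R, hR⟩ := (isBounded_iff_forall_norm_le.1 (hK.image hu.continuous).isBounded)
    rw [isBounded_iff_forall_norm_le]
    refine ⟨R, ?_⟩
    rintro _ ⟨v, rfl⟩
    obtain ⟨b, hb, hbC⟩ := hC v
    have hb' : (b : V) ∈ latt G := hb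
    have h1 : ‖u (b + v)‖ = ‖u v‖ := by
      rw [hueq b hb' v, norm_mul, norm_mul, chi_norm hH hpot hb' b.2.1, hκ b hb' b.2, one_mul,
        one_mul]
    rw [← h1]
    exact hR _ ⟨b + v, by rwa [mem_closedBall_zero_iff], rfl⟩
  intro b hb hbK
  have h1 := hueq ⟨b, hbK⟩ hb 0
  have h2 : u (⟨b, hbK⟩ + 0) = u 0 := hu.apply_eq_apply_of_bounded hbd _ _
  rw [h2] at h1
  have h3 : u 0 ≠ 0 := by
    simp only [u, Submodule.coe_zero, add_zero]
    exact mul_ne_zero (div_ne_zero hv₀ hv₀') (Complex.exp_ne_zero _)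
  exact (mul_right_cancel₀ h3 ((one_mul _).trans h1)).symm

/-- A character which is a root of unity on the vectors fixed by `NK` is one on all lattice vectors in
the kernel. -/
theorem root_of_fixed (hG : IsTorusQuotient G) (hH : IsHermitian H) (hpot : IsPot M H f) {N : ℕ}
    (hN : 1 ≤ N) (h : ∀ b ∈ latt G, b ∈ KN G (ker hH) → chi M f b ^ N = 1) :
    ∃ N' : ℕ, 1 ≤ N' ∧ ∀ b ∈ latt G, b ∈ ker hH → chi M f b ^ N' = 1 := by
  classical
  have := finite_Lin hG
  have : Fintype (Lin G) := Fintype.ofFinite _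
  let Ns : Finset (Lin G) := Finset.univ.filter (· ∈ NK G (ker hH))
  have hNs : 1 ≤ Ns.card := Finset.card_pos.2 ⟨1, by
    rw [Finset.mem_filter]
    exact ⟨Finset.mem_univ _, (NK G (ker hH)).one_mem⟩⟩
  refine ⟨Ns.card * N, Nat.mul_pos hNs hN, fun b hb hbK => ?_⟩
  obtain ⟨h1, h2, h3⟩ := chi_sum' hH hpot hb hbK Ns
  rw [pow_mul, ← h3]
  exact h _ h1 ⟨h2, fun g hg => sum_fixed (ker hH) b g hg⟩

/-- A line bundle on a torus quotient whose character is a root of unity has a power without base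
points. -/
theorem free_of_root (hG : IsTorusQuotient G) (hH : IsHermitian H) (hpot : IsPot M H f)
    (hn : IsNefForm H) {N : ℕ} (hN : 1 ≤ N)
    (h : ∀ b ∈ latt G, b ∈ ker hH → chi M f b ^ N = 1) :
    ∃ k : ℕ, 1 ≤ k ∧ ∀ v, ∃ s, (M.pow k).IsSection s ∧ s v ≠ 0 := by
  obtain ⟨n, Δ, π, -, hfib, hind⟩ := exists_sit hG hH hpot hn hN h
  obtain ⟨m, hm, A, HA, hc, hp, g, hg, hg0, heq⟩ := hind
  have h1 := Pool.Agent.R800.UB.ample_eff hfib.base hc hp
  have := finite_Lin hfib.base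
  have hcard : 0 < Nat.card (Lin Δ) := Nat.card_pos
  obtain ⟨e, he⟩ : ∃ e, e = 4 * Nat.card (Lin Δ) ^ 5 := ⟨_, rfl⟩
  have he1 : 1 ≤ e := by
    rw [he]
    exact Nat.mul_pos (by norm_num) (pow_pos hcard 5)
  rw [← he] at h1
  refine ⟨m * e, Nat.mul_pos hm he1, fun v => ?_⟩
  obtain ⟨s, hs, hsv⟩ := h1 (π v)
  have hπ : Differentiable ℂ (fun v => π v) := by
    have : (fun v => π v) = LinearMap.toContinuousLinearMap π := rfl
    rw [this]
    exact ContinuousLinearMap.differentiable _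
  refine ⟨fun w => s (π w) * (g w ^ e)⁻¹, ⟨(hs.holo.comp hπ).mul ((hg.pow e).inv fun w =>
    pow_ne_zero e (hg0 w)), fun γ w => ?_⟩, mul_ne_zero hsv (inv_ne_zero (pow_ne_zero e (hg0 v)))⟩
  obtain ⟨δ, hδ, hδγ⟩ := hfib.maps γ γ.2
  have h2 := heq γ ⟨δ, hδ⟩ hδγ w
  have h3 := hs.eq ⟨δ, hδ⟩ (π w)
  change s (δ (π w)) = A.e ⟨δ, hδ⟩ (π w) ^ e * s (π w) at h3
  change s (π ((γ : V ≃ᵃ[ℂ] V) w)) * (g ((γ : V ≃ᵃ[ℂ] V) w) ^ e)⁻¹ =
    M.e γ w ^ (m * e) * (s (π w) * (g w ^ e)⁻¹)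
  change g ((γ : V ≃ᵃ[ℂ] V) w) * M.e γ w ^ m = A.e ⟨δ, hδ⟩ (π w) * g w at h2
  rw [← hδγ w, h3]
  have h4 := pow_ne_zero e (hg0 w)
  have h5 := pow_ne_zero e (hg0 ((γ : V ≃ᵃ[ℂ] V) w))
  have h6 := congrArg (fun t => t ^ e) h2
  simp only [mul_pow] at h6
  rw [pow_mul]
  field_simp
  linear_combination (-(s (π w))) * h6

end

end Pool.Agent.T2H08.FQ
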