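import Mathlib

/-!
# Multiples of integral vectors in the span of integral vectors
-/

set_option autoImplicit false

namespace Pool.Agent.T2H08.FQ

variable {ι : Type*} [Fintype ι]

/-- an integral vector as a rational vector -/
def toQ (x : ι → ℤ) : ι → ℚ := fun s => x s

theorem toQ_inj : Function.Injective (toQ (ι := ι)) := fun x y h => funext fun s => by
  have h1 := congrFun h s
  exact Int.cast_injective (α := ℚ) h1

/-- If an integral vector `x` is a rational linear combination of the vectors in `A` then some positive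
multiple is in the group generated by `A`. -/
theorem exists_mul_mem {A : Set (ι → ℤ)} {x : ι → ℤ}
    (h : toQ x ∈ Submodule.span ℚ (toQ '' A)) :
    ∃ N : ℕ, 1 ≤ N ∧ N • x ∈ AddSubgroup.closure A := by
  have key : ∀ y ∈ Submodule.span ℚ (toQ '' A), ∃ N : ℕ, 1 ≤ N ∧
      ∃ a ∈ AddSubgroup.closure A, (N : ℚ) • y = toQ a := by
    intro y hy
    induction hy using Submodule.span_induction with
    | mem y hy =>
      obtain ⟨a, ha, rfl⟩ := hy
      exact ⟨1, le_rfl, a, AddSubgroup.subset_closure ha, by simp⟩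
    | zero => exact ⟨1, le_rfl, 0, zero_mem _, by funext s; simp [toQ]⟩
    | add y z _ _ hy hz =>
      obtain ⟨N, hN, a, ha, h1⟩ := hy
      obtain ⟨M, hM, b, hb, h2⟩ := hz
      refine ⟨N * M, Nat.mul_pos hN hM, M • a + N • b, add_mem (nsmul_mem ha _) (nsmul_mem hb _),
        ?_⟩
      funext s
      have h3 := congrFun h1 s
      have h4 := congrFun h2 s
      simp only [Pi.smul_apply, smul_eq_mul, toQ] at h3 h4
      change ((N * M : ℕ) : ℚ) * (y s + z s) = (((M • a + N • b) s : ℤ) : ℚ)
      rw [Pi.add_apply, Pi.smul_apply, Pi.smul_apply, nsmul_eq_mul, nsmul_eq_mul]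
      push_cast
      rw [← h3, ← h4]
      ring
    | smul q y _ hy =>
      obtain ⟨N, hN, a, ha, h1⟩ := hy
      refine ⟨N * q.den, Nat.mul_pos hN q.den_pos, q.num • a, zsmul_mem ha _, ?_⟩
      funext s
      have h3 := congrFun h1 s
      simp only [Pi.smul_apply, smul_eq_mul, toQ] at h3
      simp only [Pi.smul_apply, smul_eq_mul, toQ]
      push_cast
      rw [← h3]
      have h4 : (q.den : ℚ) * q = q.num := by
        rw [mul_comm]
        exact Rat.mul_den_eq_num q
      linear_combination (N : ℚ) * y s * h4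
  obtain ⟨N, hN, a, ha, h1⟩ := key _ h
  refine ⟨N, hN, ?_⟩
  have h2 : N • x = a := by
    refine toQ_inj ?_
    rw [← h1]
    funext s
    simp [toQ]
  rw [h2]
  exact ha

/-- If no positive multiple of `x` is in the group generated by `A` then some rational linear form is
zero on `A` and not zero at `x`. -/
theorem exists_form {A : Set (ι → ℤ)} {x : ι → ℤ}
    (h : ∀ N : ℕ, 1 ≤ N → N • x ∉ AddSubgroup.closure A) :
    ∃ w : ι → ℚ, (∀ a ∈ A, ∑ s, w s * a s = 0) ∧ ∑ s, w s * x s ≠ 0 := by
  classical
  have h1 : toQ x ∉ Submodule.span ℚ (toQ '' A) := fun h2 => by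
    obtain ⟨N, hN, h3⟩ := exists_mul_mem h2
    exact h N hN h3
  obtain ⟨f, hf, hf0⟩ := Submodule.exists_dual_map_eq_bot_of_notMem h1 inferInstance
  have hfs : ∀ y : ι → ℚ, f y = ∑ s, f (Pi.single s 1) * y s := by
    intro y
    conv_lhs => rw [← Finset.univ_sum_single y]
    rw [map_sum]
    refine Finset.sum_congr rfl fun s _ => ?_
    have h2 : (Pi.single s (y s) : ι → ℚ) = y s • Pi.single s 1 := by
      rw [← Pi.single_smul, smul_eq_mul, mul_one]
    rw [h2, map_smul, smul_eq_mul, mul_comm]
  refine ⟨fun s => f (Pi.single s 1), fun a ha => ?_, fun h2 => hf ?_⟩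
  · have h2 : f (toQ a) = 0 := by
      have h3 : f (toQ a) ∈ (Submodule.span ℚ (toQ '' A)).map f :=
        Submodule.mem_map_of_mem (Submodule.subset_span ⟨a, ha, rfl⟩)
      rw [hf0] at h3
      exact (Submodule.mem_bot ℚ).1 h3
    rw [hfs] at h2
    exact h2
  · rw [hfs]
    exact h2

end Pool.Agent.T2H08.FQ
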