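import Pool.Agent.T2H08.FQ.Poly

/-!
# One-parameter groups which preserve a klt pair
-/

set_option autoImplicit false

namespace Pool.Agent.T2H08.FQ

open MvPolynomial

variable {n c : ℕ} {r : Fin c → ℕ}

theorem prod_rpow (u : Co r → ℝ) (J : Co r →₀ ℕ) :
    ∏ s, (((1 / 2 : ℝ) ^ u s : ℝ) : ℂ) ^ J s = (((1 / 2 : ℝ) ^ (∑ s, u s * J s) : ℝ) : ℂ) := by
  have h1 : ∏ s, ((1 / 2 : ℝ) ^ u s) ^ J s = (1 / 2 : ℝ) ^ (∑ s, u s * J s) := by
    rw [Real.rpow_sum_of_pos (by norm_num)]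
    refine Finset.prod_congr rfl fun s _ => ?_
    rw [Real.rpow_mul (by norm_num), Real.rpow_natCast]
  rw [← h1]
  push_cast
  rfl

theorem eval_dil {u : Co r → ℝ} {U : ℝ} {p : MvPolynomial (Co r) ℂ}
    (h : ∀ J ∈ p.support, ∑ s, u s * J s = U) (z : Co r → ℂ) :
    eval (fun s => (((1 / 2 : ℝ) ^ u s : ℝ) : ℂ) * z s) p =
      (((1 / 2 : ℝ) ^ U : ℝ) : ℂ) * eval z p := by
  rw [eval_eq', eval_eq', Finset.mul_sum]
  refine Finset.sum_congr rfl fun J hJ => ?_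
  have h1 : ∏ s, ((((1 / 2 : ℝ) ^ u s : ℝ) : ℂ) * z s) ^ J s =
      (((1 / 2 : ℝ) ^ U : ℝ) : ℂ) * ∏ s, z s ^ J s := by
    rw [← h J hJ, ← prod_rpow, ← Finset.prod_mul_distrib]
    exact Finset.prod_congr rfl fun s _ => mul_pow _ _ _
  rw [h1]
  ring

section

variable {ρ : (Fin n → ℂ) → ℂ} {σ : MvPolynomial (Co r) ℂ} {l k : Fin c → ℕ}
  {β : (Fin n → ℂ) → MvPolynomial (Co r) ℂ} {m : ℕ}

/-- The discrepancy of a monomial valuation in the direction of a one-parameter group. -/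
theorem disc_pos (hρ : Differentiable ℂ ρ) (hβ : IsEffective β k) (hl : IsHomog l σ)
    (hρ0 : ∃ v, ρ v ≠ 0) (hσ0 : σ ≠ 0) (hklt : IsKlt m ρ σ β) {u : Co r → ℝ}
    (hu : ∀ s, 0 ≤ u s) (hblk : ∀ j, ∃ i, u ⟨j, i⟩ = 0) (hne : ∃ s, u s ≠ 0) {U U' : ℝ}
    (hU' : ∀ J ∈ σ.support, ∑ s, u s * J s = U')
    (hU : ∀ v, ∀ I ∈ (β v).support, ∑ s, u s * I s = U) :
    0 < U' - U / m + ∑ s, u s := by
  have hh : (0 : ℝ) < 1 / 2 := by norm_num
  have h1 := klt_scale hρ hβ hl hρ0 hσ0 hklt (a := fun s => (1 / 2 : ℝ) ^ u s)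
    (fun s => Real.rpow_pos_of_pos hh _)
    (fun s => Real.rpow_le_one hh.le (by norm_num) (hu s))
    (fun j => by
      obtain ⟨i, hi⟩ := hblk j
      exact ⟨i, by simp only [hi, Real.rpow_zero]⟩)
    (by
      obtain ⟨s, hs⟩ := hne
      exact ⟨s, Real.rpow_lt_one hh.le (by norm_num) (lt_of_le_of_ne (hu s) hs.symm)⟩)
    (A := (1 / 2 : ℝ) ^ U') (B := (1 / 2 : ℝ) ^ U) (Real.rpow_pos_of_pos hh _)
    (Real.rpow_pos_of_pos hh _) (fun z => eval_dil hU' z) (fun v z => eval_dil (hU v) z)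
  have h2 : ((1 / 2 : ℝ) ^ U') ^ 2 * ((1 / 2 : ℝ) ^ U) ^ (-(2 / (m : ℝ))) *
      (∏ s, (1 / 2 : ℝ) ^ u s) ^ 2 = (1 / 2 : ℝ) ^ (2 * (U' - U / m + ∑ s, u s)) := by
    rw [← Real.rpow_sum_of_pos hh, ← Real.rpow_mul hh.le, ← Real.rpow_natCast, ← Real.rpow_natCast,
      ← Real.rpow_mul hh.le, ← Real.rpow_mul hh.le, ← Real.rpow_add hh, ← Real.rpow_add hh]
    congr 1
    push_cast
    ring
  rw [h2] at h1
  by_contra hcon
  push Not at hcon
  have h3 : (1 : ℝ) ≤ (1 / 2 : ℝ) ^ (2 * (U' - U / m + ∑ s, u s)) :=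
    Real.one_le_rpow_of_pos_of_le_one_of_nonpos hh (by norm_num) (by linarith)
  linarith

/-- A one-parameter group which preserves a klt pair with nef log canonical divisor acts trivially. -/
theorem weight_const (hρ : Differentiable ℂ ρ) (hβ : IsEffective β k) (hl : IsHomog l σ)
    (hρ0 : ∃ v, ρ v ≠ 0) (hσ0 : σ ≠ 0) (hm : 1 ≤ m) (hklt : IsKlt m ρ σ β)
    (hk : ∀ j, m * (l j + (r j + 1)) ≤ k j) {w : Co r → ℝ} {W W' : ℝ}
    (hW' : ∀ J ∈ σ.support, ∑ s, w s * J s = W')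
    (hW : ∀ v, ∀ I ∈ (β v).support, ∑ s, w s * I s = W) (j : Fin c) (i i' : Fin (r j + 1)) :
    w ⟨j, i⟩ = w ⟨j, i'⟩ := by
  classical
  have hmx : ∀ j, ∃ i, ∀ i', w ⟨j, i'⟩ ≤ w ⟨j, i⟩ := fun j => by
    obtain ⟨i, -, hi⟩ := Finset.exists_max_image Finset.univ (fun i => w ⟨j, i⟩)
      (Finset.univ_nonempty (α := Fin (r j + 1)))
    exact ⟨i, fun i' => hi i' (Finset.mem_univ _)⟩
  have hmn : ∀ j, ∃ i, ∀ i', w ⟨j, i⟩ ≤ w ⟨j, i'⟩ := fun j => by
    obtain ⟨i, -, hi⟩ := Finset.exists_min_image Finset.univ (fun i => w ⟨j, i⟩)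
      (Finset.univ_nonempty (α := Fin (r j + 1)))
    exact ⟨i, fun i' => hi i' (Finset.mem_univ _)⟩
  choose x hx using hmx
  choose y hy using hmn
  by_contra hne
  obtain ⟨X, hX⟩ : ∃ X : Fin c → ℝ, ∀ j, X j = w ⟨j, x j⟩ := ⟨_, fun _ => rfl⟩
  obtain ⟨Y, hY⟩ : ∃ Y : Fin c → ℝ, ∀ j, Y j = w ⟨j, y j⟩ := ⟨_, fun _ => rfl⟩
  have hwX : ∀ s : Co r, w s ≤ X s.1 := fun s => by rw [hX]; exact hx s.1 s.2
  have hYw : ∀ s : Co r, Y s.1 ≤ w s := fun s => by rw [hY]; exact hy s.1 s.2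
  -- sums over the blocks
  have hblock : ∀ (Z : Fin c → ℝ) (e : Fin c → ℕ) (J : Co r →₀ ℕ),
      (∀ j, ∑ i, J ⟨j, i⟩ = e j) → ∑ s : Co r, Z s.1 * J s = ∑ j, Z j * e j := by
    intro Z e J hJ
    rw [Fintype.sum_sigma]
    refine Finset.sum_congr rfl fun j _ => ?_
    rw [← hJ j, Nat.cast_sum, Finset.mul_sum]
  have hone : ∀ Z : Fin c → ℝ, ∑ s : Co r, Z s.1 = ∑ j, Z j * (r j + 1) := by
    intro Z
    rw [Fintype.sum_sigma]
    refine Finset.sum_congr rfl fun j _ => ?_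
    change ∑ _y : Fin (r j + 1), Z j = _
    rw [Finset.sum_const, Finset.card_univ, Fintype.card_fin, nsmul_eq_mul]
    push_cast
    ring
  have h1 := disc_pos hρ hβ hl hρ0 hσ0 hklt (u := fun s => w s - Y s.1)
    (fun s => sub_nonneg.2 (hYw s)) (fun j => ⟨y j, by simp only [hY, sub_self]⟩)
    (by
      by_contra hcon
      push Not at hcon
      apply hne
      have h2 := hcon ⟨j, i⟩
      have h3 := hcon ⟨j, i'⟩
      linarith)
    (U := W - ∑ j, Y j * k j) (U' := W' - ∑ j, Y j * l j)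
    (fun J hJ => by
      simp only [sub_mul]
      rw [Finset.sum_sub_distrib, hW' J hJ, hblock Y l J (hl J hJ)])
    (fun v I hI => by
      simp only [sub_mul]
      rw [Finset.sum_sub_distrib, hW v I hI, hblock Y k I (hβ.homog v I hI)])
  have h2 := disc_pos hρ hβ hl hρ0 hσ0 hklt (u := fun s => X s.1 - w s)
    (fun s => sub_nonneg.2 (hwX s)) (fun j => ⟨x j, by simp only [hX, sub_self]⟩)
    (by
      by_contra hcon
      push Not at hcon
      apply hne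
      have h2 := hcon ⟨j, i⟩
      have h3 := hcon ⟨j, i'⟩
      linarith)
    (U := (∑ j, X j * k j) - W) (U' := (∑ j, X j * l j) - W')
    (fun J hJ => by
      simp only [sub_mul]
      rw [Finset.sum_sub_distrib, hW' J hJ, hblock X l J (hl J hJ)])
    (fun v I hI => by
      simp only [sub_mul]
      rw [Finset.sum_sub_distrib, hW v I hI, hblock X k I (hβ.homog v I hI)])
  rw [Finset.sum_sub_distrib, hone] at h1 h2
  have hm0 : (0 : ℝ) < m := by exact_mod_cast hm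
  have h3 : ∀ j, (X j - Y j) * (l j + (r j + 1)) ≤ (X j - Y j) * k j / m := by
    intro j
    rw [mul_div_assoc]
    refine mul_le_mul_of_nonneg_left ?_ ?_
    · rw [le_div_iff₀ hm0]
      have h4 : ((m * (l j + (r j + 1)) : ℕ) : ℝ) ≤ k j := by exact_mod_cast hk j
      push_cast at h4
      linarith
    · have h4 := hwX ⟨j, 0⟩
      have h5 := hYw ⟨j, 0⟩
      simp only at h4 h5
      linarith
  have h4 := Finset.sum_le_sum fun j (_ : j ∈ Finset.univ) => h3 j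
  have h5 : ∑ j, (X j - Y j) * ((l j : ℝ) + (r j + 1)) =
      (∑ j, X j * l j) - (∑ j, Y j * l j) + ((∑ j, X j * ((r j : ℝ) + 1)) -
        ∑ j, Y j * ((r j : ℝ) + 1)) := by
    rw [← Finset.sum_sub_distrib, ← Finset.sum_sub_distrib, ← Finset.sum_add_distrib]
    refine Finset.sum_congr rfl fun j _ => ?_
    ring
  have h6 : ∑ j, (X j - Y j) * (k j : ℝ) / m = ((∑ j, X j * k j) - (∑ j, Y j * k j)) / m := by
    rw [← Finset.sum_sub_distrib, Finset.sum_div]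
    refine Finset.sum_congr rfl fun j _ => ?_
    ring
  rw [h5, h6] at h4
  have h7 : (W - ∑ j, Y j * (k j : ℝ)) / m + ((∑ j, X j * (k j : ℝ)) - W) / m =
      ((∑ j, X j * (k j : ℝ)) - ∑ j, Y j * (k j : ℝ)) / m := by
    rw [← add_div]
    congr 1
    ring
  linarith

end

end Pool.Agent.T2H08.FQ
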