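import Pool.Agent.T2H08.FQ.Line
import Pool.Agent.T2H08.FQ.Kap
import Pool.Agent.T2H08.FQ.Wt
import Pool.Agent.T2H08.FQ.Span

/-!
# The coefficients of the sections
-/

set_option autoImplicit false

namespace Pool.Agent.T2H08.FQ

open Pool.Agent.W594.SYZ2 Pool.Agent.W594.SYZ2.TQ Pool.Agent.TH735.AQ MvPolynomial

variable {n c : ℕ} {r : Fin c → ℕ} {Γ : Subgroup (Grp n r)}

/-- the polynomial `p (χ z)` -/
noncomputable def scl (χ : Co r → ℂ) (p : MvPolynomial (Co r) ℂ) : MvPolynomial (Co r) ℂ :=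
  ∑ I ∈ p.support, monomial I (coeff I p * ∏ s, χ s ^ I s)

theorem eval_scl (χ : Co r → ℂ) (p : MvPolynomial (Co r) ℂ) (z : Co r → ℂ) :
    eval z (scl χ p) = eval (fun s => χ s * z s) p := by
  unfold scl
  rw [map_sum, eval_eq']
  refine Finset.sum_congr rfl fun I _ => ?_
  rw [eval_monomial, Finsupp.prod_fintype _ _ fun s => pow_zero _, mul_assoc,
    ← Finset.prod_mul_distrib]
  congr 1
  exact Finset.prod_congr rfl fun s _ => (mul_pow _ _ _).symm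

theorem coeff_scl (χ : Co r → ℂ) (p : MvPolynomial (Co r) ℂ) (I : Co r →₀ ℕ) :
    coeff I (scl χ p) = coeff I p * ∏ s, χ s ^ I s := by
  classical
  unfold scl
  rw [coeff_sum]
  simp only [coeff_monomial]
  rw [Finset.sum_ite_eq' p.support I]
  split_ifs with h
  · rfl
  · rw [notMem_support_iff.1 h, zero_mul]

theorem det_diag (χ : Co r → ℂˣ) :
    LinearMap.det (diag χ : (Co r → ℂ) →ₗ[ℂ] (Co r → ℂ)) = ∏ s, (χ s : ℂ) := by
  have h1 : (diag χ : (Co r → ℂ) →ₗ[ℂ] (Co r → ℂ)) =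
      LinearMap.pi fun s => ((χ s : ℂ) • (LinearMap.id : ℂ →ₗ[ℂ] ℂ)) ∘ₗ LinearMap.proj s := by
    refine LinearMap.ext fun z => funext fun s => ?_
    rfl
  rw [h1, LinearMap.det_pi]
  refine Finset.prod_congr rfl fun s _ => ?_
  rw [LinearMap.det_smul, LinearMap.det_id, Module.finrank_self, pow_one, mul_one]

section

variable {L : LineBundle Γ} {ρ : (Fin n → ℂ) → ℂ} {σ : MvPolynomial (Co r) ℂ} {l k : Fin c → ℕ}
  {β : (Fin n → ℂ) → MvPolynomial (Co r) ℂ} {m : ℕ}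

/-- the values of a monomial -/
theorem coeff_sigma {χ : Co r → ℂˣ} {a : ℂ} (h : ∀ z, eval (diag χ z) σ = a * eval z σ)
    {J : Co r →₀ ℕ} (hJ : J ∈ σ.support) : ∏ s, (χ s : ℂ) ^ J s = a := by
  have h1 : scl (fun s => (χ s : ℂ)) σ = C a * σ := by
    refine MvPolynomial.funext fun z => ?_
    rw [eval_scl, map_mul, eval_C]
    exact h z
  have h2 := congrArg (coeff J) h1
  rw [coeff_scl, coeff_C_mul, mul_comm] at h2
  exact mul_right_cancel₀ (mem_support_iff.1 hJ) h2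

/-- the transformation of the coefficients -/
theorem coeff_beta (hL : IsLogPluricanonical L m ρ σ l β k) (hσ0 : σ ≠ 0)
    {b : Fin n → ℂ} {χ : Co r → ℂˣ}
    (hb : ((AffineEquiv.constVAdd ℂ (Fin n → ℂ) b, diag χ) : Grp n r) ∈ Γ) {a : ℂ}
    (ha : ∀ z, eval (diag χ z) σ = a * eval z σ) (v : Fin n → ℂ) (I : Co r →₀ ℕ) :
    coeff I (β (b + v)) * (∏ s, (χ s : ℂ) ^ I s) * ρ v ^ m =
      L.e ⟨_, hb⟩ v * (∏ s, (χ s : ℂ)) ^ m * a ^ m * coeff I (β v) * ρ (b + v) ^ m := by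
  have h1 : (scl (fun s => (χ s : ℂ)) (β (b + v)) * C (ρ v ^ m) -
      C (L.e ⟨_, hb⟩ v * (∏ s, (χ s : ℂ)) ^ m * a ^ m * ρ (b + v) ^ m) * β v) * σ ^ m = 0 := by
    refine MvPolynomial.funext fun z => ?_
    have h2 := hL.eq ⟨_, hb⟩ v z
    change eval (diag χ z) (β (b + v)) * (ρ v * eval z σ) ^ m =
      L.e ⟨_, hb⟩ v * (LinearMap.det ((AffineEquiv.constVAdd ℂ (Fin n → ℂ) b).linear :
        (Fin n → ℂ) →ₗ[ℂ] (Fin n → ℂ)) * LinearMap.det (diag χ : (Co r → ℂ) →ₗ[ℂ] (Co r → ℂ))) ^ m *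
        eval z (β v) * (ρ (b + v) * eval (diag χ z) σ) ^ m at h2
    have h3 : ((AffineEquiv.constVAdd ℂ (Fin n → ℂ) b).linear :
        (Fin n → ℂ) →ₗ[ℂ] (Fin n → ℂ)) = LinearMap.id := by
      ext w
      rfl
    rw [h3, LinearMap.det_id, one_mul, det_diag, ha] at h2
    have h4 : eval z (scl (fun s => (χ s : ℂ)) (β (b + v))) = eval (diag χ z) (β (b + v)) :=
      eval_scl _ _ _
    simp only [map_mul, map_sub, map_pow, eval_C, map_zero, h4]
    rw [sub_mul]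
    rw [sub_eq_zero]
    simp only [mul_pow] at h2 ⊢
    linear_combination h2
  have h2 := (mul_eq_zero.1 h1).resolve_right (pow_ne_zero m hσ0)
  have h3 := congrArg (coeff I) (sub_eq_zero.1 h2)
  rw [mul_comm (scl _ _) (C _), coeff_C_mul, coeff_scl, coeff_C_mul] at h3
  linear_combination h3

end

end Pool.Agent.T2H08.FQ
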