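import Pool.Agent.TH735.AQ.MirDefs

/-!
# Quotients of flat bundles of products of projective spaces over complex tori: definitions
-/

set_option autoImplicit false

namespace Pool.Agent.T2H08.FQ

open Pool.Agent.W594.SYZ2 MvPolynomial

/-- The indices of the homogeneous coordinates of `F = P^{r 0} × ... × P^{r (c - 1)}`: the coordinates
with the indices `⟨j, i⟩` are the coordinates of the `j`-th factor. -/
abbrev Co {c : ℕ} (r : Fin c → ℕ) : Type := Σ j, Fin (r j + 1)

variable {n c : ℕ} {r : Fin c → ℕ}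

/-- `z` gives a point of `F`: for each factor one of the coordinates is not zero. -/
def IsPt (z : Co r → ℂ) : Prop := ∀ j, ∃ i, z ⟨j, i⟩ ≠ 0

/-- The multiplication of the coordinates with the numbers `χ s`. -/
def diag : (Co r → ℂˣ) →* ((Co r → ℂ) ≃ₗ[ℂ] (Co r → ℂ)) where
  toFun χ := LinearEquiv.piCongrRight fun s => LinearEquiv.smulOfUnit (χ s)
  map_one' := LinearEquiv.ext fun z => funext fun s => one_mul (z s)
  map_mul' := fun χ χ' => LinearEquiv.ext fun z => funext fun s =>
    mul_assoc (χ s : ℂ) (χ' s) (z s)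

theorem diag_apply (χ : Co r → ℂˣ) (z : Co r → ℂ) (s : Co r) : diag χ z s = χ s * z s := rfl

/-- The multiplication of the coordinates of the `j`-th factor with the number `μ j`; it gives the
identity of `F`. -/
def scal : (Fin c → ℂˣ) →* ((Co r → ℂ) ≃ₗ[ℂ] (Co r → ℂ)) where
  toFun μ := diag fun s => μ s.1
  map_one' := LinearEquiv.ext fun z => funext fun s => one_mul (z s)
  map_mul' := fun μ ν => LinearEquiv.ext fun z => funext fun s =>
    mul_assoc (μ s.1 : ℂ) (ν s.1) (z s)

theorem scal_apply (μ : Fin c → ℂˣ) (z : Co r → ℂ) (s : Co r) :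
    scal μ z s = μ s.1 * z s := rfl

variable (n r) in
/-- The pairs of an affine transformation of `V = ℂ^n` and a linear transformation of the homogeneous
coordinates of `F`. -/
abbrev Grp : Type :=
  ((Fin n → ℂ) ≃ᵃ[ℂ] (Fin n → ℂ)) × ((Co r → ℂ) ≃ₗ[ℂ] (Co r → ℂ))

variable (n r) in
/-- The pairs `(γ, A)` such that `A` multiplies the homogeneous coordinates with numbers. -/
def Diags : Subgroup (Grp n r) := (diag (r := r)).range.comap (MonoidHom.snd _ _)

variable (n r) in
/-- The pairs `(γ, A)` such that `A` gives the identity of `F`. -/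
def Scals : Subgroup (Grp n r) := (scal (r := r)).range.comap (MonoidHom.snd _ _)

/-- The affine transformations `γ` such that `(γ, A) ∈ Γ` for some `A` which multiplies the coordinates
with numbers. -/
def GD (Γ : Subgroup (Grp n r)) : Subgroup ((Fin n → ℂ) ≃ᵃ[ℂ] (Fin n → ℂ)) :=
  (Γ ⊓ Diags n r).map (MonoidHom.fst _ _)

/-- The affine transformations `γ` such that `γ × id` is one of the transformations of `V × F` given by
`Γ`. -/
def GV (Γ : Subgroup (Grp n r)) : Subgroup ((Fin n → ℂ) ≃ᵃ[ℂ] (Fin n → ℂ)) :=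
  (Γ ⊓ Scals n r).map (MonoidHom.fst _ _)

/-- The affine transformations `γ` such that `(γ, A) ∈ Γ` for some `A`. -/
def GA (Γ : Subgroup (Grp n r)) : Subgroup ((Fin n → ℂ) ≃ᵃ[ℂ] (Fin n → ℂ)) :=
  Γ.map (MonoidHom.fst _ _)

/-- `X = (V × F) / Γ`, `V = ℂ^n`, `F = P^{r 0} × ... × P^{r (c - 1)}`, is the quotient by a finite group
of a fibre product of projective bundles `P (E_j) → T` over a complex torus `T`, where each `E_j` is a
direct sum of flat unitary line bundles. The elements of `Γ` are pairs of an affine transformation of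
`V` and a linear transformation of the homogeneous coordinates of `F`.

* the linear transformations are unitary on the space of coordinates of each factor;
* the multiplications of the coordinates of the factors with numbers of absolute value `1`, which act
  trivially on `V × F`, are in `Γ`;
* the affine transformations form a group which contains a full lattice of translations, with finite
  quotient;
* the elements of `Γ` which multiply the coordinates of `F` with numbers form a subgroup of finite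
  index. -/
structure IsFlatQuotient (Γ : Subgroup (Grp n r)) : Prop where
  unitary : ∀ g ∈ Γ, ∀ (z : Co r → ℂ) (j : Fin c),
    ∑ i, ‖g.2 z ⟨j, i⟩‖ ^ 2 = ∑ i, ‖z ⟨j, i⟩‖ ^ 2
  scalar : ∀ μ : Fin c → ℂˣ, (∀ j, ‖(μ j : ℂ)‖ = 1) → ((1, scal μ) : Grp n r) ∈ Γ
  torus : IsTorusQuotient (GA Γ)
  diagonal : (Diags n r).relIndex Γ ≠ 0

/-- A holomorphic line bundle on `X = (V × F) / Γ`: its pullback to `V × F` is the line bundle
`O (deg 0, ..., deg (c - 1))`, so that its sections are functions `s (v, z)` which are homogeneous of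
degree `deg j` in the coordinates of the `j`-th factor, and `e` is a factor of automorphy for `Γ`, such
that the stabiliser of every point of `V × F` acts trivially on the fibre: if `g = (γ, A)` fixes the point
`(v, z)`, that is, `γ v = v` and `A z = μ z`, then `e_g (v) = ∏ μ j ^ deg j`. -/
structure LineBundle (Γ : Subgroup (Grp n r)) where
  deg : Fin c → ℤ
  e : Γ → (Fin n → ℂ) → ℂ
  holo : ∀ g, Differentiable ℂ (e g)
  ne_zero : ∀ g v, e g v ≠ 0
  mul : ∀ (g h : Γ) (v : Fin n → ℂ), e (g * h) v = e g ((h : Grp n r).1 v) * e h v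
  stab : ∀ (g : Γ) (v : Fin n → ℂ) (z : Co r → ℂ) (μ : Fin c → ℂˣ), IsPt z →
    (g : Grp n r).1 v = v → (g : Grp n r).2 z = scal μ z → e g v = ∏ j, (μ j : ℂ) ^ deg j

/-- The tensor power `L^k`. -/
def LineBundle.pow {Γ : Subgroup (Grp n r)} (L : LineBundle Γ) (k : ℕ) : LineBundle Γ where
  deg := fun j => k * L.deg j
  e := fun g v => L.e g v ^ k
  holo := fun g => (L.holo g).pow k
  ne_zero := fun g v => pow_ne_zero k (L.ne_zero g v)
  mul := fun g h v => by rw [L.mul, mul_pow]
  stab := fun g v z μ hz h h' => by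
    rw [L.stab g v z μ hz h h', ← Finset.prod_pow]
    refine Finset.prod_congr rfl fun j _ => ?_
    rw [mul_comm, zpow_mul, zpow_natCast]

/-- A global section of `L`: a holomorphic function `s (v, z)`, homogeneous of degree `deg j` in the
coordinates of the `j`-th factor, with `s (γ v, A z) = e_g (v) s (v, z)` for all `g = (γ, A)` in `Γ`. -/
structure LineBundle.IsSection {Γ : Subgroup (Grp n r)} (L : LineBundle Γ)
    (s : (Fin n → ℂ) × (Co r → ℂ) → ℂ) : Prop where
  holo : Differentiable ℂ s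
  homog : ∀ (μ : Fin c → ℂˣ) v z, s (v, scal μ z) = (∏ j, (μ j : ℂ) ^ L.deg j) * s (v, z)
  eq : ∀ (g : Γ) v z, s ((g : Grp n r).1 v, (g : Grp n r).2 z) = L.e g v * s (v, z)

/-- `L` is semiample: the sections of some power `L^M`, `M ≥ 1`, have no common zero. -/
def LineBundle.IsSemiample {Γ : Subgroup (Grp n r)} (L : LineBundle Γ) : Prop :=
  ∃ M : ℕ, 1 ≤ M ∧ ∀ v z, IsPt z → ∃ s, (L.pow M).IsSection s ∧ s (v, z) ≠ 0

/-- The class `c_1 (L)` is `H + ∑ deg j ω_j`, `ω_j` the class of the Fubini-Study metric of the `j`-th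
factor: for some holomorphic function `f` on `V` the formula
`‖s (v, z)‖² = |s (v, z)|² exp (- π H (v, v) - 2 Re f (v)) ∏ |z_j| ^ (- 2 deg j)` defines a hermitian
metric on `L`, that is, this expression is invariant under `Γ` when `s` is a section of `L`. -/
def LineBundle.IsChernForm {Γ : Subgroup (Grp n r)} (L : LineBundle Γ)
    (H : (Fin n → ℂ) → (Fin n → ℂ) → ℂ) : Prop :=
  IsHermitian H ∧ ∃ f : (Fin n → ℂ) → ℂ, Differentiable ℂ f ∧ ∀ (g : Γ) (v : Fin n → ℂ),
    ‖L.e g v‖ ^ 2 =
      Real.exp (Real.pi * (H ((g : Grp n r).1 v) ((g : Grp n r).1 v)).re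
        + 2 * (f ((g : Grp n r).1 v)).re - (Real.pi * (H v v).re + 2 * (f v).re))

/-- The line bundle `L` with the class `H + ∑ deg j ω_j` is nef: `H` is positive semidefinite and the
degrees are not negative. -/
def LineBundle.IsNef {Γ : Subgroup (Grp n r)} (L : LineBundle Γ)
    (H : (Fin n → ℂ) → (Fin n → ℂ) → ℂ) : Prop :=
  IsNefForm H ∧ ∀ j, 0 ≤ L.deg j

/-- `p` is homogeneous of degree `k j` in the coordinates of the `j`-th factor, for all `j`. -/
def IsHomog (k : Fin c → ℕ) (p : MvPolynomial (Co r) ℂ) : Prop :=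
  ∀ I ∈ p.support, ∀ j, ∑ i, I ⟨j, i⟩ = k j

/-- The properties of the ramification divisor which are used: the zeros of `ρ` are the points on the
mirrors in `V`, and the divisor of `σ` is invariant. -/
structure IsRamification (Γ : Subgroup (Grp n r)) (ρ : (Fin n → ℂ) → ℂ)
    (σ : MvPolynomial (Co r) ℂ) (l : Fin c → ℕ) : Prop where
  holo : Differentiable ℂ ρ
  rne : ∃ v, ρ v ≠ 0
  rzero : ∀ v, ρ v = 0 ↔ Pool.Agent.TH735.AQ.OnMirror (GV Γ) v
  ne_zero : σ ≠ 0
  homog : IsHomog l σ
  inv : ∀ g ∈ Γ, ∃ a : ℂ, ∀ z, eval (g.2 z) σ = a * eval z σ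

/-- `β` defines an effective divisor on `V × F`: it is a polynomial in the coordinates of `F`,
homogeneous of degree `k j` in the coordinates of the `j`-th factor, whose coefficients are entire
functions on `V`, not all zero. -/
structure IsEffective (β : (Fin n → ℂ) → MvPolynomial (Co r) ℂ) (k : Fin c → ℕ) : Prop where
  holo : ∀ I, Differentiable ℂ fun v => coeff I (β v)
  homog : ∀ v, IsHomog k (β v)
  ne_zero : ∃ v, β v ≠ 0

/-- `L` is the line bundle `O_X (m (K_X + B))`, where `ρ` and `σ` define the ramification divisor and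
`β` defines the pullback of the effective divisor `m B` to `V × F`. Here the local section `g` of `L` is
the `m`-canonical form `g ρ ^ m σ ^ m / β (dv Ω) ^ m`, which is invariant under `Γ`; `Ω = ∧ Ω_j`,
`Ω_j = ∑ i, (-1) ^ i z_i dz_0 ∧ ... dz_i omitted ... ∧ dz_{r j}`, is homogeneous of degree `r j + 1` in the
coordinates of the `j`-th factor, and `A^* Ω = det (A) Ω`. -/
structure IsLogPluricanonical {Γ : Subgroup (Grp n r)} (L : LineBundle Γ) (m : ℕ)
    (ρ : (Fin n → ℂ) → ℂ) (σ : MvPolynomial (Co r) ℂ) (l : Fin c → ℕ)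
    (β : (Fin n → ℂ) → MvPolynomial (Co r) ℂ) (k : Fin c → ℕ) : Prop where
  deg : ∀ j, L.deg j + m * (l j + (r j + 1)) = k j
  eq : ∀ (g : Γ) (v : Fin n → ℂ) (z : Co r → ℂ),
    eval ((g : Grp n r).2 z) (β ((g : Grp n r).1 v)) * (ρ v * eval z σ) ^ m =
      L.e g v * (LinearMap.det ((g : Grp n r).1.linear : (Fin n → ℂ) →ₗ[ℂ] (Fin n → ℂ)) *
          LinearMap.det ((g : Grp n r).2 : (Co r → ℂ) →ₗ[ℂ] (Co r → ℂ))) ^ m *
        eval z (β v) * (ρ ((g : Grp n r).1 v) * eval ((g : Grp n r).2 z) σ) ^ m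

/-- The pair `(X, B)` is klt: `|ρ σ|² / |β| ^ (2 / m)` is locally integrable on the set of the `(v, z)`
which give points of `V × F`, `β` the function which defines the pullback of `m B`. -/
def IsKlt (m : ℕ) (ρ : (Fin n → ℂ) → ℂ) (σ : MvPolynomial (Co r) ℂ)
    (β : (Fin n → ℂ) → MvPolynomial (Co r) ℂ) : Prop :=
  MeasureTheory.LocallyIntegrableOn
    (fun p : (Fin n → ℂ) × (Co r → ℂ) =>
      ‖ρ p.1 * eval p.2 σ‖ ^ 2 * ‖eval p.2 (β p.1)‖ ^ (-(2 / (m : ℝ))))
    {p | IsPt p.2}

end Pool.Agent.T2H08.FQ
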