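import Mathlib

/-!
# Locally integrable functions which are homogeneous for a one-parameter group
-/

set_option autoImplicit false

namespace Pool.Agent.T2H08.FQ

open MeasureTheory

variable {n : ℕ} {ι : Type*} [Fintype ι]

/-- the linear map which multiplies the second coordinates with real numbers -/
noncomputable def dil (n : ℕ) (a : ι → ℝ) :
    ((Fin n → ℂ) × (ι → ℂ)) →L[ℝ] ((Fin n → ℂ) × (ι → ℂ)) :=
  LinearMap.toContinuousLinearMap (LinearMap.prodMap LinearMap.id
    (LinearMap.pi fun s => (a s • (LinearMap.id : ℂ →ₗ[ℝ] ℂ)) ∘ₗ LinearMap.proj s))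

theorem dil_apply (a : ι → ℝ) (p : (Fin n → ℂ) × (ι → ℂ)) :
    dil n a p = (p.1, fun s => (a s : ℂ) * p.2 s) := by
  refine Prod.ext rfl (funext fun s => ?_)
  change a s • p.2 s = (a s : ℂ) * p.2 s
  rw [Complex.real_smul]

theorem dil_det (a : ι → ℝ) : (dil n a).det = (∏ s, a s) ^ 2 := by
  classical
  have h1 : (dil n a).det = LinearMap.det (LinearMap.prodMap (LinearMap.id :
      (Fin n → ℂ) →ₗ[ℝ] (Fin n → ℂ))
    (LinearMap.pi fun s : ι => (a s • (LinearMap.id : ℂ →ₗ[ℝ] ℂ)) ∘ₗ LinearMap.proj s)) := rfl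
  rw [h1, LinearMap.det_prodMap, LinearMap.det_id, one_mul, LinearMap.det_pi]
  rw [← Finset.prod_pow]
  refine Finset.prod_congr rfl fun s _ => ?_
  rw [LinearMap.det_smul, LinearMap.det_id, mul_one, Complex.finrank_real_complex]

theorem dil_inj {a : ι → ℝ} (ha : ∀ s, a s ≠ 0) : Function.Injective (dil n a) := by
  intro p q h
  rw [dil_apply, dil_apply] at h
  have h1 := congrArg Prod.fst h
  have h2 := congrArg Prod.snd h
  refine Prod.ext h1 (funext fun s => ?_)
  have h3 := congrFun h2 s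
  exact mul_left_cancel₀ (Complex.ofReal_ne_zero.2 (ha s)) h3

/-- Let `f ≥ 0` be locally integrable on an open set `Ω`, multiplied with `t > 0` by the map `dil a`,
`a s ≤ 1`, which maps the compact subset `D` of `Ω` to itself, and not zero almost everywhere on the
nonempty open subset `U` of `D` outside the image. Then `t ∏ a s ^ 2 < 1`. -/
theorem scale_lt {f : (Fin n → ℂ) × (ι → ℂ) → ℝ} {a : ι → ℝ} (ha : ∀ s, 0 < a s) {t : ℝ} (ht : 0 < t)
    (hft : ∀ p, f (dil n a p) = t * f p) {D U : Set ((Fin n → ℂ) × (ι → ℂ))}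
    (hD : IsCompact D) (hfD : IntegrableOn f D) (hDD : dil n a '' D ⊆ D)
    (hUD : U ⊆ D) (hdis : Disjoint U (dil n a '' D))
    (hUf : ∫⁻ p in U, ENNReal.ofReal (f p) ≠ 0) : t * (∏ s, a s) ^ 2 < 1 := by
  have hhaar : (volume : Measure ((Fin n → ℂ) × (ι → ℂ))).IsAddHaarMeasure :=
    Measure.prod.instIsAddHaarMeasure _ _
  have hfin : ∫⁻ p in D, ENNReal.ofReal (f p) ≠ ⊤ := by
    have h1 := hfD.lintegral_lt_top
    exact h1.ne
  have hpos : (0 : ℝ) < (∏ s, a s) ^ 2 := pow_pos (Finset.prod_pos fun s _ => ha s) 2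
  have h1 : ∫⁻ p in dil n a '' D, ENNReal.ofReal (f p) =
      ENNReal.ofReal ((∏ s, a s) ^ 2 * t) * ∫⁻ p in D, ENNReal.ofReal (f p) := by
    rw [lintegral_image_eq_lintegral_abs_det_fderiv_mul volume hD.measurableSet
      (f' := fun _ => dil n a) (fun x _ => (dil n a).hasFDerivWithinAt)
      (dil_inj fun s => (ha s).ne').injOn]
    rw [← lintegral_const_mul' _ _ ENNReal.ofReal_ne_top]
    refine lintegral_congr fun p => ?_
    rw [hft, dil_det, abs_of_pos hpos, ← ENNReal.ofReal_mul hpos.le,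
      ← ENNReal.ofReal_mul (mul_pos hpos ht).le]
    congr 1
    ring
  have h2 : (∫⁻ p in U, ENNReal.ofReal (f p)) + ∫⁻ p in dil n a '' D, ENNReal.ofReal (f p) ≤
      ∫⁻ p in D, ENNReal.ofReal (f p) := by
    have hm : MeasurableSet (dil n a '' D) :=
      (hD.image (dil n a).continuous).measurableSet
    rw [← lintegral_union hm hdis]
    exact lintegral_mono_set (Set.union_subset hUD hDD)
  rw [h1] at h2
  by_contra hcon
  push Not at hcon
  have h3 : (1 : ENNReal) ≤ ENNReal.ofReal ((∏ s, a s) ^ 2 * t) := by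
    rw [← ENNReal.ofReal_one]
    exact ENNReal.ofReal_le_ofReal (by linarith)
  have h4 : ∫⁻ p in D, ENNReal.ofReal (f p) ≤
      ENNReal.ofReal ((∏ s, a s) ^ 2 * t) * ∫⁻ p in D, ENNReal.ofReal (f p) := by
    calc ∫⁻ p in D, ENNReal.ofReal (f p) = 1 * ∫⁻ p in D, ENNReal.ofReal (f p) := (one_mul _).symm
      _ ≤ _ := by gcongr
  have h5 : (∫⁻ p in U, ENNReal.ofReal (f p)) + ∫⁻ p in D, ENNReal.ofReal (f p) ≤
      0 + ∫⁻ p in D, ENNReal.ofReal (f p) := by
    rw [zero_add]
    refine le_trans ?_ h2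
    gcongr
  exact hUf (le_antisymm ((ENNReal.add_le_add_iff_right hfin).1 h5) zero_le)

/-- A holomorphic function which is zero on a nonempty open set is zero. -/
theorem holo_zero {E : Type*} [NormedAddCommGroup E] [NormedSpace ℂ E] {G : E → ℂ}
    (hG : Differentiable ℂ G) {U : Set E} (hU : IsOpen U) (hne : U.Nonempty)
    (h : ∀ p ∈ U, G p = 0) (q : E) : G q = 0 := by
  obtain ⟨p, hp⟩ := hne
  have hline : Differentiable ℂ fun z : ℂ => p + z • (q - p) :=
    (differentiable_id.smul_const (q - p)).const_add p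
  have h1 : AnalyticOnNhd ℂ (fun z : ℂ => G (p + z • (q - p))) Set.univ :=
    fun z _ => (hG.comp hline).analyticAt z
  have h2 : (fun z : ℂ => G (p + z • (q - p))) =ᶠ[nhds 0] 0 := by
    have h3 : (fun z : ℂ => p + z • (q - p)) ⁻¹' U ∈ nhds (0 : ℂ) :=
      (hU.preimage hline.continuous).mem_nhds (by simpa using hp)
    filter_upwards [h3] with z hz
    exact h _ hz
  have h3 := h1.eqOn_zero_of_preconnected_of_eventuallyEq_zero isPreconnected_univ
    (Set.mem_univ 0) h2 (Set.mem_univ 1)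
  simpa using h3

end Pool.Agent.T2H08.FQ
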