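import Pool.Agent.T2H08.FQ.Poly
import Pool.Agent.TH735.AQ.Mero

/-!
# The restriction of line bundles to the constant sections
-/

set_option autoImplicit false

namespace Pool.Agent.T2H08.FQ

open Pool.Agent.W594.SYZ2 Pool.Agent.W594.SYZ2.TQ Pool.Agent.TH735.AQ MvPolynomial

variable {n c : ℕ} {r : Fin c → ℕ} {Γ : Subgroup (Grp n r)}

theorem mem_GA {γ : (Fin n → ℂ) ≃ᵃ[ℂ] (Fin n → ℂ)} :
    γ ∈ GA Γ ↔ ∃ A, ((γ, A) : Grp n r) ∈ Γ := by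
  constructor
  · rintro ⟨g, hg, rfl⟩
    exact ⟨g.2, hg⟩
  · rintro ⟨A, hA⟩
    exact ⟨(γ, A), hA, rfl⟩

theorem mem_GD {γ : (Fin n → ℂ) ≃ᵃ[ℂ] (Fin n → ℂ)} :
    γ ∈ GD Γ ↔ ∃ χ : Co r → ℂˣ, ((γ, diag χ) : Grp n r) ∈ Γ := by
  constructor
  · rintro ⟨g, ⟨hg, χ, hχ⟩, rfl⟩
    refine ⟨χ, ?_⟩
    have h1 : ((g.1, diag χ) : Grp n r) = g := Prod.ext rfl hχ
    change ((g.1, diag χ) : Grp n r) ∈ Γ
    rw [h1]
    exact hg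
  · rintro ⟨χ, hχ⟩
    exact ⟨(γ, diag χ), ⟨hχ, χ, rfl⟩, rfl⟩

theorem mem_GV {γ : (Fin n → ℂ) ≃ᵃ[ℂ] (Fin n → ℂ)} :
    γ ∈ GV Γ ↔ ∃ μ : Fin c → ℂˣ, ((γ, scal μ) : Grp n r) ∈ Γ := by
  constructor
  · rintro ⟨g, ⟨hg, χ, hχ⟩, rfl⟩
    refine ⟨χ, ?_⟩
    have h1 : ((g.1, scal χ) : Grp n r) = g := Prod.ext rfl hχ
    change ((g.1, scal χ) : Grp n r) ∈ Γ
    rw [h1]
    exact hg
  · rintro ⟨χ, hχ⟩
    exact ⟨(γ, scal χ), ⟨hχ, χ, rfl⟩, rfl⟩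

theorem GV_le : GV Γ ≤ GD Γ := by
  intro γ hγ
  obtain ⟨μ, hμ⟩ := mem_GV.1 hγ
  exact mem_GD.2 ⟨fun s => μ s.1, hμ⟩

/-- the numbers -/
noncomputable def chiOf (γ : GD Γ) : Co r → ℂˣ := (mem_GD.1 γ.2).choose

/-- the element of `Γ` -/
noncomputable def lft (γ : GD Γ) : Γ := ⟨(γ, diag (chiOf γ)), (mem_GD.1 γ.2).choose_spec⟩

/-- the coordinates of a coordinate point of `F` -/
def cpt (ι : ∀ j, Fin (r j + 1)) (s : Co r) : ℂ := if s.2 = ι s.1 then 1 else 0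

theorem isPt_cpt (ι : ∀ j, Fin (r j + 1)) : IsPt (cpt ι) := fun j => ⟨ι j, by
  unfold cpt
  rw [if_pos rfl]
  exact one_ne_zero⟩

theorem diag_cpt (ι : ∀ j, Fin (r j + 1)) (χ : Co r → ℂˣ) :
    diag χ (cpt ι) = scal (fun j => χ ⟨j, ι j⟩) (cpt ι) := by
  funext s
  rw [diag_apply, scal_apply]
  obtain ⟨j, i⟩ := s
  unfold cpt
  by_cases h : i = ι j
  · simp only [h]
  · simp only [if_neg h, mul_zero]

theorem e_diag (L : LineBundle Γ) (ι : ∀ j, Fin (r j + 1)) {γ : (Fin n → ℂ) ≃ᵃ[ℂ] (Fin n → ℂ)}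
    {χ χ' : Co r → ℂˣ} (h : ((γ, diag χ) : Grp n r) ∈ Γ) (h' : ((γ, diag χ') : Grp n r) ∈ Γ)
    (v : Fin n → ℂ) :
    L.e ⟨_, h⟩ v * (∏ j, (χ ⟨j, ι j⟩ : ℂ) ^ L.deg j)⁻¹ =
      L.e ⟨_, h'⟩ v * (∏ j, (χ' ⟨j, ι j⟩ : ℂ) ^ L.deg j)⁻¹ := by
  obtain ⟨t, ht⟩ : ∃ t : Γ, t = (⟨_, h⟩ : Γ)⁻¹ * ⟨_, h'⟩ := ⟨_, rfl⟩
  have ht1 : (t : Grp n r).1 = 1 := by
    rw [ht]
    change γ⁻¹ * γ = 1
    exact inv_mul_cancel γ
  have ht2 : (t : Grp n r).2 = diag (χ⁻¹ * χ') := by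
    rw [ht, map_mul, map_inv]
    rfl
  have h1 : (⟨_, h'⟩ : Γ) = ⟨_, h⟩ * t := by rw [ht, mul_inv_cancel_left]
  have h2 := L.stab t v (cpt ι) (fun j => (χ⁻¹ * χ') ⟨j, ι j⟩) (isPt_cpt ι) (by rw [ht1]; rfl)
    (by rw [ht2, diag_cpt])
  rw [h1, L.mul, h2, ht1]
  change _ = L.e _ v * _ * _
  rw [mul_assoc]
  congr 1
  have h3 : ∀ j, (χ' ⟨j, ι j⟩ : ℂ) ^ L.deg j ≠ 0 := fun j => zpow_ne_zero _ (Units.ne_zero _)
  have h4 : ∀ j, (χ ⟨j, ι j⟩ : ℂ) ^ L.deg j ≠ 0 := fun j => zpow_ne_zero _ (Units.ne_zero _)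
  have h5 : ∏ j, (((χ⁻¹ * χ') ⟨j, ι j⟩ : ℂˣ) : ℂ) ^ L.deg j =
      (∏ j, (χ ⟨j, ι j⟩ : ℂ) ^ L.deg j)⁻¹ * ∏ j, (χ' ⟨j, ι j⟩ : ℂ) ^ L.deg j := by
    rw [← Finset.prod_inv_distrib, ← Finset.prod_mul_distrib]
    refine Finset.prod_congr rfl fun j _ => ?_
    rw [Pi.mul_apply, Pi.inv_apply, Units.val_mul, Units.val_inv_eq_inv_val, mul_zpow, inv_zpow]
  rw [h5, mul_assoc, mul_inv_cancel₀ (Finset.prod_ne_zero_iff.2 fun j _ => h3 j), mul_one]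

/-- The restriction of `L` to the image of `V × {ι}`, `ι` a coordinate point of `F`. -/
noncomputable def secL (L : LineBundle Γ) (ι : ∀ j, Fin (r j + 1)) :
    Pool.Agent.W594.SYZ2.LineBundle (GD Γ) where
  e := fun γ v => L.e (lft γ) v * (∏ j, (chiOf γ ⟨j, ι j⟩ : ℂ) ^ L.deg j)⁻¹
  holo := fun γ => (L.holo _).mul_const _
  ne_zero := fun γ v => mul_ne_zero (L.ne_zero _ _)
    (inv_ne_zero (Finset.prod_ne_zero_iff.2 fun j _ => zpow_ne_zero _ (Units.ne_zero _)))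
  mul := fun γ δ v => by
    have h1 : (((γ * δ : GD Γ) : (Fin n → ℂ) ≃ᵃ[ℂ] (Fin n → ℂ)), diag (chiOf γ * chiOf δ)) =
        ((lft γ * lft δ : Γ) : Grp n r) := by
      rw [map_mul]
      rfl
    have h2 : ((((γ * δ : GD Γ) : (Fin n → ℂ) ≃ᵃ[ℂ] (Fin n → ℂ)),
        diag (chiOf γ * chiOf δ)) : Grp n r) ∈ Γ := by
      rw [h1]
      exact (lft γ * lft δ).2
    have h3 := e_diag L ι (lft (γ * δ)).2 h2 v
    have h4 : (⟨_, h2⟩ : Γ) = lft γ * lft δ := Subtype.ext h1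
    rw [h4, L.mul] at h3
    have h5 : L.e (lft (γ * δ)) v * (∏ j, (chiOf (γ * δ) ⟨j, ι j⟩ : ℂ) ^ L.deg j)⁻¹ =
      L.e (lft γ) (((lft δ : Γ) : Grp n r).1 v) * L.e (lft δ) v *
        (∏ j, (((chiOf γ * chiOf δ) ⟨j, ι j⟩ : ℂˣ) : ℂ) ^ L.deg j)⁻¹ := h3
    rw [h5]
    have h6 : ∏ j, (((chiOf γ * chiOf δ) ⟨j, ι j⟩ : ℂˣ) : ℂ) ^ L.deg j =
        (∏ j, (chiOf γ ⟨j, ι j⟩ : ℂ) ^ L.deg j) * ∏ j, (chiOf δ ⟨j, ι j⟩ : ℂ) ^ L.deg j := by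
      rw [← Finset.prod_mul_distrib]
      refine Finset.prod_congr rfl fun j _ => ?_
      rw [Pi.mul_apply, Units.val_mul, mul_zpow]
    rw [h6, mul_inv]
    change L.e (lft γ) ((δ : (Fin n → ℂ) ≃ᵃ[ℂ] (Fin n → ℂ)) v) * _ * _ = _
    ring
  stab := fun γ v h => by
    have h1 := L.stab (lft γ) v (cpt ι) (fun j => chiOf γ ⟨j, ι j⟩) (isPt_cpt ι) h
      (diag_cpt ι _)
    rw [h1]
    exact mul_inv_cancel₀ (Finset.prod_ne_zero_iff.2 fun j _ => zpow_ne_zero _ (Units.ne_zero _))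

theorem secL_e (L : LineBundle Γ) (ι : ∀ j, Fin (r j + 1)) (γ : GD Γ) {χ : Co r → ℂˣ}
    (h : (((γ : (Fin n → ℂ) ≃ᵃ[ℂ] (Fin n → ℂ)), diag χ) : Grp n r) ∈ Γ) (v : Fin n → ℂ) :
    (secL L ι).e γ v = L.e ⟨_, h⟩ v * (∏ j, (χ ⟨j, ι j⟩ : ℂ) ^ L.deg j)⁻¹ :=
  e_diag L ι (lft γ).2 h v

/-- the numbers have absolute value one -/
theorem norm_chi (hΓ : IsFlatQuotient Γ) {γ : (Fin n → ℂ) ≃ᵃ[ℂ] (Fin n → ℂ)} {χ : Co r → ℂˣ}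
    (h : ((γ, diag χ) : Grp n r) ∈ Γ) (s : Co r) : ‖(χ s : ℂ)‖ = 1 := by
  classical
  have h1 := hΓ.unitary _ h (Pi.single s 1) s.1
  obtain ⟨j, i⟩ := s
  have h2 : ∀ i' : Fin (r j + 1), i' ≠ i → (Pi.single (⟨j, i⟩ : Co r) (1 : ℂ) : Co r → ℂ) ⟨j, i'⟩ = 0 := by
    intro i' hi'
    refine Pi.single_eq_of_ne ?_ _
    intro h3
    exact hi' (eq_of_heq (Sigma.mk.inj h3).2)
  change ∑ i', ‖diag χ (Pi.single ⟨j, i⟩ 1) ⟨j, i'⟩‖ ^ 2 =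
    ∑ i', ‖(Pi.single (⟨j, i⟩ : Co r) (1 : ℂ) : Co r → ℂ) ⟨j, i'⟩‖ ^ 2 at h1
  rw [Finset.sum_eq_single i (fun i' _ hi' => by rw [diag_apply, h2 i' hi']; simp)
      (fun h => absurd (Finset.mem_univ _) h),
    Finset.sum_eq_single i (fun i' _ hi' => by rw [h2 i' hi']; simp)
      (fun h => absurd (Finset.mem_univ _) h), diag_apply, Pi.single_eq_same, mul_one, norm_one,
    one_pow] at h1
  exact (pow_eq_one_iff_of_nonneg (norm_nonneg _) two_ne_zero).1 h1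

theorem secL_chern (hΓ : IsFlatQuotient Γ) {L : LineBundle Γ}
    {H : (Fin n → ℂ) → (Fin n → ℂ) → ℂ} {f : (Fin n → ℂ) → ℂ} (hf : Differentiable ℂ f)
    (h : ∀ (g : Γ) (v : Fin n → ℂ), ‖L.e g v‖ ^ 2 =
      Real.exp (Real.pi * (H ((g : Grp n r).1 v) ((g : Grp n r).1 v)).re
        + 2 * (f ((g : Grp n r).1 v)).re - (Real.pi * (H v v).re + 2 * (f v).re)))
    (ι : ∀ j, Fin (r j + 1)) : IsPot (secL L ι) H f := by
  refine ⟨hf, fun γ v => ?_⟩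
  have h1 : ‖(∏ j, (chiOf γ ⟨j, ι j⟩ : ℂ) ^ L.deg j)⁻¹‖ = 1 := by
    rw [norm_inv, norm_prod, inv_eq_one]
    refine Finset.prod_eq_one fun j _ => ?_
    rw [norm_zpow, norm_chi hΓ (lft γ).2, one_zpow]
  have h2 : ‖(secL L ι).e γ v‖ = ‖L.e (lft γ) v‖ := by
    change ‖L.e (lft γ) v * _‖ = _
    rw [norm_mul, h1, mul_one]
  rw [h2]
  exact h (lft γ) v

/-- a subgroup of finite index -/
theorem torus_of_le {V : Type*} [NormedAddCommGroup V] [NormedSpace ℂ V]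
    {G G' : Subgroup (V ≃ᵃ[ℂ] V)} (h : IsTorusQuotient G) (hle : G' ≤ G)
    (hN : ∀ b ∈ latt G, ∃ N : ℕ, 1 ≤ N ∧ N • b ∈ latt G') : IsTorusQuotient G' := by
  have hlatt : (latt G' : Set V) ⊆ latt G := fun b hb => hle hb
  refine ⟨?_, ?_, ?_⟩
  · have h1 : DiscreteTopology (latt G : Set V) := h.discrete
    exact DiscreteTopology.of_subset h1 hlatt
  · rw [eq_top_iff, ← h.span_top, Submodule.span_le]
    intro b hb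
    obtain ⟨N, hN1, h2⟩ := hN b hb
    have h3 : b = ((N : ℝ)⁻¹) • (N • b) := by
      rw [← Nat.cast_smul_eq_nsmul ℝ, smul_smul, inv_mul_cancel₀ (by positivity), one_smul]
    rw [h3]
    exact Submodule.smul_mem _ _ (Submodule.subset_span h2)
  · refine h.finite_linear.subset ?_
    rintro A ⟨γ, hγ, rfl⟩
    exact ⟨γ, hle hγ, rfl⟩

theorem constVAdd_pow {V : Type*} [NormedAddCommGroup V] [NormedSpace ℂ V] (b : V) (M : ℕ) :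
    (AffineEquiv.constVAdd ℂ V b) ^ M = AffineEquiv.constVAdd ℂ V (M • b) := by
  induction M with
  | zero =>
    rw [pow_zero, zero_smul]
    apply AffineEquiv.ext
    intro v
    change v = 0 + v
    rw [zero_add]
  | succ M ih =>
    rw [pow_succ', ih, succ_nsmul']
    apply AffineEquiv.ext
    intro v
    change b + (M • b + v) = b + M • b + v
    rw [add_assoc]

/-- `V / GD Γ` is a torus quotient. -/
theorem torus_GD (hΓ : IsFlatQuotient Γ) : IsTorusQuotient (GD Γ) := by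
  refine torus_of_le hΓ.torus (Subgroup.map_mono inf_le_left) ?_
  intro b hb
  rw [mem_latt, mem_GA] at hb
  obtain ⟨A, hA⟩ := hb
  have h0 : ((Diags n r).subgroupOf Γ).index ≠ 0 := hΓ.diagonal
  have h1 := Subgroup.exists_pow_mem_of_index_ne_zero h0 ⟨_, hA⟩
  obtain ⟨N, hN, -, h1⟩ := h1
  refine ⟨N, hN, ?_⟩
  rw [mem_latt, mem_GD]
  rw [Subgroup.mem_subgroupOf] at h1
  obtain ⟨χ, hχ⟩ := h1
  refine ⟨χ, ?_⟩
  have h2 : ((AffineEquiv.constVAdd ℂ (Fin n → ℂ) (N • b), diag χ) : Grp n r) =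
      (AffineEquiv.constVAdd ℂ (Fin n → ℂ) b, A) ^ N := by
    refine Prod.ext ?_ hχ
    rw [Prod.pow_fst, constVAdd_pow]
  rw [h2]
  exact Γ.pow_mem hA N

end Pool.Agent.T2H08.FQ
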