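import Pool.Agent.T2H08.FQ.Line

/-!
# Norms of sections
-/

set_option autoImplicit false

namespace Pool.Agent.T2H08.FQ

open Pool.Agent.W594.SYZ2 MvPolynomial

variable {n c : ℕ} {r : Fin c → ℕ} {Γ : Subgroup (Grp n r)}

/-- unitary transformations preserve the factors -/
theorem block_zero (hΓ : IsFlatQuotient Γ) {g : Grp n r} (hg : g ∈ Γ) {z : Co r → ℂ} {j : Fin c}
    (hz : ∀ i, z ⟨j, i⟩ = 0) (i : Fin (r j + 1)) : g.2 z ⟨j, i⟩ = 0 := by
  have h1 := hΓ.unitary g hg z j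
  have h2 : ∑ i, ‖z ⟨j, i⟩‖ ^ 2 = 0 := Finset.sum_eq_zero fun i _ => by rw [hz]; simp
  rw [h2] at h1
  have h3 := (Finset.sum_eq_zero_iff_of_nonneg (fun i _ => by positivity)).1 h1 i
    (Finset.mem_univ _)
  simpa using h3

theorem isPt_apply (hΓ : IsFlatQuotient Γ) {g : Grp n r} (hg : g ∈ Γ) {z : Co r → ℂ}
    (hz : IsPt z) : IsPt (g.2 z) := by
  intro j
  by_contra hcon
  push Not at hcon
  have h1 := hΓ.unitary g hg z j
  have h2 : ∑ i, ‖g.2 z ⟨j, i⟩‖ ^ 2 = 0 := Finset.sum_eq_zero fun i _ => by rw [hcon]; simp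
  rw [h2] at h1
  obtain ⟨i, hi⟩ := hz j
  have h3 := (Finset.sum_eq_zero_iff_of_nonneg (fun i _ => by positivity)).1 h1.symm i
    (Finset.mem_univ _)
  exact hi (by simpa using h3)

theorem apply_scal (hΓ : IsFlatQuotient Γ) {g : Grp n r} (hg : g ∈ Γ) (μ : Fin c → ℂˣ)
    (z : Co r → ℂ) : g.2 (scal μ z) = scal μ (g.2 z) := by
  funext ⟨j, i⟩
  rw [scal_apply]
  have h1 : g.2 (scal μ z - (μ j : ℂ) • z) ⟨j, i⟩ = 0 := by
    refine block_zero hΓ hg (fun i => ?_) i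
    rw [Pi.sub_apply, scal_apply, Pi.smul_apply, smul_eq_mul, sub_self]
  rw [map_sub, map_smul, Pi.sub_apply, Pi.smul_apply, smul_eq_mul, sub_eq_zero] at h1
  exact h1

/-- the action of a pair -/
def act2 (g : Grp n r) (p : (Fin n → ℂ) × (Co r → ℂ)) : (Fin n → ℂ) × (Co r → ℂ) :=
  (g.1 p.1, g.2 p.2)

theorem act2_mul (g h : Grp n r) (p : (Fin n → ℂ) × (Co r → ℂ)) :
    act2 (g * h) p = act2 g (act2 h p) := rfl

theorem act2_one (p : (Fin n → ℂ) × (Co r → ℂ)) : act2 1 p = p := rfl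

theorem act2_inv (g : Grp n r) (p : (Fin n → ℂ) × (Co r → ℂ)) : act2 g (act2 g⁻¹ p) = p := by
  rw [← act2_mul, mul_inv_cancel, act2_one]

theorem act2_inv' (g : Grp n r) (p : (Fin n → ℂ) × (Co r → ℂ)) : act2 g⁻¹ (act2 g p) = p := by
  rw [← act2_mul, inv_mul_cancel, act2_one]

theorem act2_differentiable (g : Grp n r) : Differentiable ℂ (act2 g) := by
  have h1 : Differentiable ℂ (fun v => g.1 v) := by
    have h2 : (fun v => g.1 v) = fun v =>
        LinearMap.toContinuousLinearMap (g.1.linear : (Fin n → ℂ) →ₗ[ℂ] (Fin n → ℂ)) v + g.1 0 := by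
      funext v
      have h3 := g.1.map_vadd 0 v
      rw [vadd_eq_add, vadd_eq_add, add_zero] at h3
      exact h3
    rw [h2]
    exact (ContinuousLinearMap.differentiable _).add_const _
  have h2 : Differentiable ℂ (fun z => g.2 z) := by
    have h3 : (fun z => g.2 z) = fun z =>
        LinearMap.toContinuousLinearMap (g.2 : (Co r → ℂ) →ₗ[ℂ] (Co r → ℂ)) z := rfl
    rw [h3]
    exact ContinuousLinearMap.differentiable _
  exact (h1.comp differentiable_fst).prodMk (h2.comp differentiable_snd)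

variable (L : LineBundle Γ)

/-- The functions which are sections of `L ^ K` for the diagonal elements. -/
def SecD (K : ℕ) : Submodule ℂ ((Fin n → ℂ) × (Co r → ℂ) → ℂ) where
  carrier := {s | Differentiable ℂ s ∧
    (∀ (μ : Fin c → ℂˣ) v z, s (v, scal μ z) = (∏ j, (μ j : ℂ) ^ L.deg j) ^ K * s (v, z)) ∧
    ∀ g : Γ, (g : Grp n r) ∈ Diags n r → ∀ p, s (act2 g p) = L.e g p.1 ^ K * s p}
  zero_mem' := ⟨differentiable_const 0, fun μ v z => by simp, fun g _ p => by simp⟩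
  add_mem' := by
    rintro s t ⟨h1, h2, h3⟩ ⟨h1', h2', h3'⟩
    refine ⟨h1.add h1', fun μ v z => ?_, fun g hg p => ?_⟩
    · rw [Pi.add_apply, Pi.add_apply, h2, h2']
      ring
    · rw [Pi.add_apply, Pi.add_apply, h3 g hg, h3' g hg]
      ring
  smul_mem' := by
    rintro a s ⟨h1, h2, h3⟩
    refine ⟨h1.const_smul a, fun μ v z => ?_, fun g hg p => ?_⟩
    · rw [Pi.smul_apply, Pi.smul_apply, h2, smul_eq_mul, smul_eq_mul]
      ring
    · rw [Pi.smul_apply, Pi.smul_apply, h3 g hg, smul_eq_mul, smul_eq_mul]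
      ring

/-- the transform of a section -/
noncomputable def T (K : ℕ) (s : (Fin n → ℂ) × (Co r → ℂ) → ℂ) (g : Γ)
    (p : (Fin n → ℂ) × (Co r → ℂ)) : ℂ :=
  L.e g (act2 (g : Grp n r)⁻¹ p).1 ^ K * s (act2 (g : Grp n r)⁻¹ p)

variable {L}

theorem e_one (v : Fin n → ℂ) : L.e 1 v = 1 := by
  have h1 := L.mul 1 1 v
  rw [mul_one] at h1
  have h2 : (((1 : Γ) : Grp n r)).1 v = v := rfl
  rw [h2] at h1
  exact (mul_eq_left₀ (L.ne_zero 1 v)).1 h1.symm

theorem e_mul (g h : Γ) (p : (Fin n → ℂ) × (Co r → ℂ)) :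
    L.e (g * h) p.1 = L.e g (act2 (h : Grp n r) p).1 * L.e h p.1 := L.mul g h p.1

theorem T_mul {K : ℕ} {s : (Fin n → ℂ) × (Co r → ℂ) → ℂ} (hs : s ∈ SecD L K) (g h : Γ)
    (hh : (h : Grp n r) ∈ Diags n r) (p : (Fin n → ℂ) × (Co r → ℂ)) :
    T L K s (g * h) p = T L K s g p := by
  unfold T
  obtain ⟨q, hq⟩ : ∃ q, q = act2 ((g * h : Γ) : Grp n r)⁻¹ p := ⟨_, rfl⟩
  have h1 : act2 (h : Grp n r) q = act2 (g : Grp n r)⁻¹ p := by
    rw [hq, ← act2_mul, Subgroup.coe_mul, mul_inv_rev, mul_inv_cancel_left]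
  rw [← hq, ← h1, hs.2.2 h hh q, e_mul, mul_pow, mul_assoc]

theorem T_left {K : ℕ} {s : (Fin n → ℂ) × (Co r → ℂ) → ℂ} (x g : Γ)
    (p : (Fin n → ℂ) × (Co r → ℂ)) :
    T L K s g (act2 (x : Grp n r) p) = L.e x p.1 ^ K * T L K s (x⁻¹ * g) p := by
  unfold T
  obtain ⟨q, hq⟩ : ∃ q, q = act2 (g : Grp n r)⁻¹ (act2 (x : Grp n r) p) := ⟨_, rfl⟩
  have h1 : act2 ((x⁻¹ * g : Γ) : Grp n r)⁻¹ p = q := by
    rw [hq, ← act2_mul, Subgroup.coe_mul, mul_inv_rev, Subgroup.coe_inv, inv_inv]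
  have h2 : act2 (g : Grp n r) q = act2 (x : Grp n r) p := by
    rw [hq, act2_inv]
  have h3 : L.e g q.1 = L.e x p.1 * L.e (x⁻¹ * g) q.1 := by
    have h4 : g = x * (x⁻¹ * g) := by rw [mul_inv_cancel_left]
    have h5 : act2 ((x⁻¹ * g : Γ) : Grp n r) q = p := by
      rw [← h1, act2_inv]
    calc L.e g q.1 = L.e (x * (x⁻¹ * g)) q.1 := by rw [← h4]
      _ = L.e x p.1 * L.e (x⁻¹ * g) q.1 := by rw [e_mul, h5]
  rw [← hq, h1, h3]
  ring

theorem T_differentiable {K : ℕ} {s : (Fin n → ℂ) × (Co r → ℂ) → ℂ} (hs : s ∈ SecD L K) (g : Γ) :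
    Differentiable ℂ (T L K s g) := by
  have h1 := act2_differentiable (g : Grp n r)⁻¹
  have h2 : Differentiable ℂ fun p => (act2 (g : Grp n r)⁻¹ p).1 := differentiable_fst.comp h1
  have h3 : Differentiable ℂ fun p => L.e g (act2 (g : Grp n r)⁻¹ p).1 := (L.holo g).comp h2
  exact (h3.pow K).mul (hs.1.comp h1)

theorem T_scal (hΓ : IsFlatQuotient Γ) {K : ℕ} {s : (Fin n → ℂ) × (Co r → ℂ) → ℂ}
    (hs : s ∈ SecD L K) (g : Γ) (μ : Fin c → ℂˣ) (v : Fin n → ℂ) (z : Co r → ℂ) :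
    T L K s g (v, scal μ z) = (∏ j, (μ j : ℂ) ^ L.deg j) ^ K * T L K s g (v, z) := by
  unfold T
  have h1 : act2 (g : Grp n r)⁻¹ (v, scal μ z) =
      ((act2 (g : Grp n r)⁻¹ (v, z)).1, scal μ (act2 (g : Grp n r)⁻¹ (v, z)).2) := by
    have h2 := apply_scal hΓ (Γ.inv_mem g.2) μ z
    unfold act2
    exact Prod.ext rfl h2
  rw [h1, hs.2.1]
  ring

theorem differentiable_prod {E ι : Type*} [NormedAddCommGroup E] [NormedSpace ℂ E] (u : Finset ι)
    (f : ι → E → ℂ) (h : ∀ q, Differentiable ℂ (f q)) :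
    Differentiable ℂ fun p => ∏ q ∈ u, f q p := by
  classical
  induction u using Finset.induction_on with
  | empty =>
    simp only [Finset.prod_empty]
    exact differentiable_const _
  | insert a u ha ih =>
    simp only [Finset.prod_insert ha]
    exact (h a).mul ih

/-- **Sections for the diagonal elements give sections.** -/
theorem semiample_of_secD (hΓ : IsFlatQuotient Γ) {K : ℕ} (hK : 1 ≤ K)
    (h : ∀ p : (Fin n → ℂ) × (Co r → ℂ), IsPt p.2 → ∃ s ∈ SecD L K, s p ≠ 0) :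
    L.IsSemiample := by
  classical
  let D : Subgroup Γ := (Diags n r).subgroupOf Γ
  have hD : D.index ≠ 0 := hΓ.diagonal
  have hfi : D.FiniteIndex := ⟨hD⟩
  have : Finite (Γ ⧸ D) := Subgroup.finite_quotient_of_finiteIndex
  have : Fintype (Γ ⧸ D) := Fintype.ofFinite _
  refine ⟨K * Fintype.card (Γ ⧸ D), Nat.mul_pos hK (Fintype.card_pos), fun v z hz => ?_⟩
  -- a section which is not zero at the finitely many points
  obtain ⟨s, hs, hs0⟩ := Module.Dual.exists_forall_mem_ne_zero_of_forall_exists (SecD L K)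
    (fun q : Γ ⧸ D => (LinearMap.proj (act2 (q.out : Grp n r)⁻¹ (v, z)) :
      ((Fin n → ℂ) × (Co r → ℂ) → ℂ) →ₗ[ℂ] ℂ)) (fun q => by
        obtain ⟨s, hs, hs0⟩ := h (act2 (q.out : Grp n r)⁻¹ (v, z))
          (isPt_apply hΓ (Γ.inv_mem q.out.2) hz)
        exact ⟨s, hs, hs0⟩)
  refine ⟨fun p => ∏ q : Γ ⧸ D, T L K s q.out p, ⟨?_, ?_, ?_⟩, ?_⟩
  · exact differentiable_prod _ _ fun q => T_differentiable hs q.out
  · intro μ v z
    change ∏ q : Γ ⧸ D, T L K s q.out (v, scal μ z) =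
      (∏ j, (μ j : ℂ) ^ (((K * Fintype.card (Γ ⧸ D) : ℕ) : ℤ) * L.deg j)) *
        ∏ q : Γ ⧸ D, T L K s q.out (v, z)
    have h1 : ∏ j, (μ j : ℂ) ^ (((K * Fintype.card (Γ ⧸ D) : ℕ) : ℤ) * L.deg j) =
        (∏ j, (μ j : ℂ) ^ L.deg j) ^ (K * Fintype.card (Γ ⧸ D)) := by
      rw [← Finset.prod_pow]
      refine Finset.prod_congr rfl fun j _ => ?_
      rw [mul_comm, zpow_mul, zpow_natCast]
    rw [h1, Finset.prod_congr rfl fun q _ => T_scal hΓ hs q.out μ v z, Finset.prod_mul_distrib,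
      Finset.prod_const, Finset.card_univ, pow_mul]
  · intro x v z
    have h1 : ∀ q : Γ ⧸ D, T L K s q.out (act2 (x : Grp n r) (v, z)) =
        L.e x v ^ K * T L K s (x⁻¹ • q).out (v, z) := by
      intro q
      rw [T_left]
      congr 1
      have h2 : (QuotientGroup.mk ((x⁻¹ • q).out) : Γ ⧸ D) = QuotientGroup.mk (x⁻¹ * q.out) := by
        rw [QuotientGroup.out_eq', ← smul_eq_mul, MulAction.Quotient.coe_smul_out]
      have h3 := Subgroup.mem_subgroupOf.1 (QuotientGroup.eq.1 h2)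
      have h4 : x⁻¹ * q.out = (x⁻¹ • q).out * ((x⁻¹ • q).out⁻¹ * (x⁻¹ * q.out)) := by
        rw [mul_inv_cancel_left]
      rw [h4, T_mul hs _ _ h3]
    change ∏ q : Γ ⧸ D, T L K s q.out (act2 (x : Grp n r) (v, z)) =
      L.e x v ^ (K * Fintype.card (Γ ⧸ D)) * ∏ q : Γ ⧸ D, T L K s q.out (v, z)
    rw [Finset.prod_congr rfl fun q _ => h1 q, Finset.prod_mul_distrib, Finset.prod_const,
      Finset.card_univ, pow_mul]
    congr 1
    exact Fintype.prod_equiv (MulAction.toPerm x⁻¹) _ _ fun q => rfl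
  · refine Finset.prod_ne_zero_iff.2 fun q _ => ?_
    exact mul_ne_zero (pow_ne_zero K (L.ne_zero _ _)) (hs0 q)

end Pool.Agent.T2H08.FQ
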