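import Pool.Agent.T2H08.FQ.Defs
import Pool.Agent.T2H08.FQ.Klt

/-!
# Polynomials in the coordinates of `F` whose coefficients are functions on `V`
-/

set_option autoImplicit false

namespace Pool.Agent.T2H08.FQ

open MvPolynomial MeasureTheory

variable {n c : ℕ} {r : Fin c → ℕ}

/-- the exponents which are at most `K` -/
noncomputable def box (r : Fin c → ℕ) (K : ℕ) : Finset (Co r →₀ ℕ) :=
  (Fintype.piFinset fun _ : Co r => Finset.range (K + 1)).map
    Finsupp.equivFunOnFinite.symm.toEmbedding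

theorem mem_box {K : ℕ} {I : Co r →₀ ℕ} : I ∈ box r K ↔ ∀ s, I s ≤ K := by
  unfold box
  rw [Finset.mem_map]
  constructor
  · rintro ⟨f, hf, rfl⟩ s
    rw [Fintype.mem_piFinset] at hf
    have := hf s
    rw [Finset.mem_range] at this
    change f s ≤ K
    omega
  · intro h
    refine ⟨fun s => I s, ?_, ?_⟩
    · rw [Fintype.mem_piFinset]
      intro s
      rw [Finset.mem_range]
      have := h s
      omega
    · ext s
      rfl

theorem IsHomog.in_box {k : Fin c → ℕ} {p : MvPolynomial (Co r) ℂ} (h : IsHomog k p)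
    {I : Co r →₀ ℕ} (hI : I ∈ p.support) : I ∈ box r (∑ j, k j) := by
  rw [mem_box]
  rintro ⟨j, i⟩
  calc I ⟨j, i⟩ ≤ ∑ i, I ⟨j, i⟩ :=
        Finset.single_le_sum (f := fun i => I ⟨j, i⟩) (fun _ _ => Nat.zero_le _) (Finset.mem_univ i)
    _ = k j := h I hI j
    _ ≤ ∑ j, k j := Finset.single_le_sum (f := k) (fun _ _ => Nat.zero_le _) (Finset.mem_univ j)

theorem IsHomog.eval_eq {k : Fin c → ℕ} {p : MvPolynomial (Co r) ℂ} (h : IsHomog k p)
    (z : Co r → ℂ) : eval z p = ∑ I ∈ box r (∑ j, k j), coeff I p * ∏ s, z s ^ I s := by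
  rw [eval_eq']
  refine Finset.sum_subset (fun I hI => IsHomog.in_box h hI) fun I _ hI => ?_
  rw [notMem_support_iff.1 hI, zero_mul]

theorem holo_eval {k : Fin c → ℕ} {β : (Fin n → ℂ) → MvPolynomial (Co r) ℂ}
    (hβ : ∀ I, Differentiable ℂ fun v => coeff I (β v)) (hk : ∀ v, IsHomog k (β v)) :
    Differentiable ℂ fun p : (Fin n → ℂ) × (Co r → ℂ) => eval p.2 (β p.1) := by
  have h1 : (fun p : (Fin n → ℂ) × (Co r → ℂ) => eval p.2 (β p.1)) =
      fun p => ∑ I ∈ box r (∑ j, k j), coeff I (β p.1) * ∏ s, p.2 s ^ I s :=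
    funext fun p => IsHomog.eval_eq (hk p.1) p.2
  rw [h1]
  refine Differentiable.fun_sum fun I _ => ?_
  refine Differentiable.mul ((hβ I).comp differentiable_fst) ?_
  have h3 : ∀ s : Co r, Differentiable ℂ fun p : (Fin n → ℂ) × (Co r → ℂ) => p.2 s :=
    fun s => differentiable_pi.1 differentiable_snd s
  have h2 : ∀ s : Co r, Differentiable ℂ fun p : (Fin n → ℂ) × (Co r → ℂ) => p.2 s ^ I s :=
    fun s => (h3 s).pow _
  have h4 : (fun p : (Fin n → ℂ) × (Co r → ℂ) => ∏ s, p.2 s ^ I s) =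
      ∏ s, fun p : (Fin n → ℂ) × (Co r → ℂ) => p.2 s ^ I s := by
    funext p
    rw [Finset.prod_apply]
  rw [h4]
  refine Finset.prod_induction _ (fun g : (Fin n → ℂ) × (Co r → ℂ) → ℂ => Differentiable ℂ g)
    (fun a b ha hb => ha.mul hb) (differentiable_const 1) fun s _ => h2 s

theorem exists_pt {ρ : (Fin n → ℂ) → ℂ} {σ : MvPolynomial (Co r) ℂ}
    {β : (Fin n → ℂ) → MvPolynomial (Co r) ℂ} (hρ : Differentiable ℂ ρ)
    (hβ : ∀ I, Differentiable ℂ fun v => coeff I (β v)) (hρ0 : ∃ v, ρ v ≠ 0) (hσ0 : σ ≠ 0)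
    (hβ0 : ∃ v, β v ≠ 0) : ∃ v z, ρ v ≠ 0 ∧ eval z σ ≠ 0 ∧ eval z (β v) ≠ 0 := by
  obtain ⟨v1, hv1⟩ := hβ0
  obtain ⟨I, hI⟩ := MvPolynomial.ne_zero_iff.1 hv1
  have h1 : ∃ v, ρ v * coeff I (β v) ≠ 0 := by
    by_contra hcon
    push Not at hcon
    obtain ⟨v0, hv0⟩ := hρ0
    have hline : Differentiable ℂ fun z : ℂ => v0 + z • (v1 - v0) :=
      (differentiable_id.smul_const (v1 - v0)).const_add v0
    have h1 : AnalyticOnNhd ℂ (fun z : ℂ => ρ (v0 + z • (v1 - v0))) Set.univ :=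
      fun z _ => (hρ.comp hline).analyticAt z
    have h2 : AnalyticOnNhd ℂ (fun z : ℂ => coeff I (β (v0 + z • (v1 - v0)))) Set.univ :=
      fun z _ => ((hβ I).comp hline).analyticAt z
    rcases AnalyticOnNhd.eq_zero_or_eq_zero_of_mul_eq_zero h1 h2 (fun z _ => hcon _)
        isPreconnected_univ with h | h
    · apply hv0
      have := h 0 (Set.mem_univ _)
      simpa using this
    · apply hI
      have := h 1 (Set.mem_univ _)
      simpa using this
  obtain ⟨v, hv⟩ := h1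
  have hρv := left_ne_zero_of_mul hv
  have hβv : β v ≠ 0 := fun h => right_ne_zero_of_mul hv (by rw [h, coeff_zero])
  have h2 : σ * β v ≠ 0 := mul_ne_zero hσ0 hβv
  have h3 : ∃ z, eval z (σ * β v) ≠ 0 := by
    by_contra hcon
    push Not at hcon
    exact h2 (MvPolynomial.funext fun z => by rw [hcon, map_zero])
  obtain ⟨z, hz⟩ := h3
  rw [map_mul] at hz
  exact ⟨v, z, hρv, left_ne_zero_of_mul hz, right_ne_zero_of_mul hz⟩

/-- The consequence of klt for dilations which multiply the functions with constants. -/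
theorem klt_scale {ρ : (Fin n → ℂ) → ℂ} {σ : MvPolynomial (Co r) ℂ} {l k : Fin c → ℕ}
    {β : (Fin n → ℂ) → MvPolynomial (Co r) ℂ} (hρ : Differentiable ℂ ρ)
    (hβ : IsEffective β k) (hl : IsHomog l σ) (hρ0 : ∃ v, ρ v ≠ 0) (hσ0 : σ ≠ 0)
    {m : ℕ} (hklt : IsKlt m ρ σ β) {a : Co r → ℝ} (ha : ∀ s, 0 < a s)
    (ha1 : ∀ s, a s ≤ 1) (hblk : ∀ j, ∃ i, a ⟨j, i⟩ = 1) (hlt : ∃ s, a s < 1) {A B : ℝ}
    (hA : 0 < A) (hB : 0 < B)
    (hσ : ∀ z : Co r → ℂ, eval (fun s => (a s : ℂ) * z s) σ = A * eval z σ)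
    (hβa : ∀ v (z : Co r → ℂ), eval (fun s => (a s : ℂ) * z s) (β v) = B * eval z (β v)) :
    A ^ 2 * B ^ (-(2 / (m : ℝ))) * (∏ s, a s) ^ 2 < 1 := by
  classical
  obtain ⟨s0, hs0⟩ := hlt
  obtain ⟨D, hDdef⟩ : ∃ D : Set ((Fin n → ℂ) × (Co r → ℂ)), D = {p | ‖p.1‖ ≤ 1 ∧
      ∀ s, (a s = 1 → 1 ≤ ‖p.2 s‖ ∧ ‖p.2 s‖ ≤ 2) ∧ (a s < 1 → ‖p.2 s‖ ≤ 1)} := ⟨_, rfl⟩
  obtain ⟨U, hUdef⟩ : ∃ U : Set ((Fin n → ℂ) × (Co r → ℂ)), U = {p | ‖p.1‖ < 1 ∧
      ∀ s, (a s = 1 → 1 < ‖p.2 s‖ ∧ ‖p.2 s‖ < 2) ∧ (a s < 1 → a s < ‖p.2 s‖ ∧ ‖p.2 s‖ < 1)} :=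
    ⟨_, rfl⟩
  have hc1 : Continuous fun p : (Fin n → ℂ) × (Co r → ℂ) => ‖p.1‖ := continuous_fst.norm
  have hc2 : ∀ s, Continuous fun p : (Fin n → ℂ) × (Co r → ℂ) => ‖p.2 s‖ := fun s =>
    ((continuous_apply s).comp continuous_snd).norm
  have hDc : IsCompact D := by
    have hcl : IsClosed D := by
      have h1 : D = {p | ‖p.1‖ ≤ 1} ∩ ⋂ s, {p | (a s = 1 → 1 ≤ ‖p.2 s‖ ∧ ‖p.2 s‖ ≤ 2) ∧
          (a s < 1 → ‖p.2 s‖ ≤ 1)} := by
        rw [hDdef]
        ext p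
        simp
      rw [h1]
      refine IsClosed.inter (isClosed_le hc1 continuous_const) (isClosed_iInter fun s => ?_)
      rcases eq_or_ne (a s) 1 with h2 | h2
      · simp only [h2, forall_const, lt_irrefl, false_imp_iff, and_true]
        exact (isClosed_le continuous_const (hc2 s)).inter (isClosed_le (hc2 s) continuous_const)
      · have h3 : a s < 1 := lt_of_le_of_ne (ha1 s) h2
        simp only [h2, h3, forall_const, false_imp_iff, true_and]
        exact isClosed_le (hc2 s) continuous_const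
    refine Metric.isCompact_of_isClosed_isBounded hcl ?_
    refine (Metric.isBounded_closedBall (x := (0 : (Fin n → ℂ) × (Co r → ℂ))) (r := 2)).subset ?_
    intro p hp
    rw [hDdef] at hp
    rw [mem_closedBall_zero_iff, Prod.norm_def]
    refine max_le (hp.1.trans (by norm_num)) ?_
    rw [pi_norm_le_iff_of_nonneg (by norm_num)]
    intro s
    rcases eq_or_ne (a s) 1 with h2 | h2
    · exact ((hp.2 s).1 h2).2
    · exact ((hp.2 s).2 (lt_of_le_of_ne (ha1 s) h2)).trans (by norm_num)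
  have hUo : IsOpen U := by
    have h1 : U = {p | ‖p.1‖ < 1} ∩ ⋂ s, {p | (a s = 1 → 1 < ‖p.2 s‖ ∧ ‖p.2 s‖ < 2) ∧
        (a s < 1 → a s < ‖p.2 s‖ ∧ ‖p.2 s‖ < 1)} := by
      rw [hUdef]
      ext p
      simp
    rw [h1]
    refine IsOpen.inter (isOpen_lt hc1 continuous_const) (isOpen_iInter_of_finite fun s => ?_)
    rcases eq_or_ne (a s) 1 with h2 | h2
    · simp only [h2, forall_const, lt_irrefl, false_imp_iff, and_true]
      exact (isOpen_lt continuous_const (hc2 s)).inter (isOpen_lt (hc2 s) continuous_const)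
    · have h3 : a s < 1 := lt_of_le_of_ne (ha1 s) h2
      simp only [h2, h3, forall_const, false_imp_iff, true_and]
      exact (isOpen_lt continuous_const (hc2 s)).inter (isOpen_lt (hc2 s) continuous_const)
  have hUne : U.Nonempty := by
    obtain ⟨y, hy⟩ : ∃ y : Co r → ℂ, ∀ s,
        y s = if a s = 1 then ((3 / 2 : ℝ) : ℂ) else (((a s + 1) / 2 : ℝ) : ℂ) := ⟨_, fun _ => rfl⟩
    have hy1 : ∀ s, a s = 1 → ‖y s‖ = 3 / 2 := fun s h => by
      rw [hy, if_pos h, Complex.norm_real, Real.norm_eq_abs, abs_of_pos (by norm_num)]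
    have hy2 : ∀ s, a s < 1 → ‖y s‖ = (a s + 1) / 2 := fun s h => by
      have h4 := ha s
      rw [hy, if_neg h.ne, Complex.norm_real, Real.norm_eq_abs, abs_of_pos (by linarith)]
    refine ⟨(0, y), ?_⟩
    rw [hUdef]
    refine ⟨by rw [norm_zero]; norm_num, fun s => ⟨fun h => ?_, fun h => ?_⟩⟩
    · change 1 < ‖y s‖ ∧ ‖y s‖ < 2
      rw [hy1 s h]
      constructor <;> norm_num
    · change a s < ‖y s‖ ∧ ‖y s‖ < 1
      rw [hy2 s h]
      constructor <;> linarith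
  have hUD : U ⊆ D := by
    intro p hp
    rw [hUdef] at hp
    rw [hDdef]
    exact ⟨hp.1.le, fun s => ⟨fun h => ⟨((hp.2 s).1 h).1.le, ((hp.2 s).1 h).2.le⟩,
      fun h => ((hp.2 s).2 h).2.le⟩⟩
  have hDD : dil n a '' D ⊆ D := by
    rintro _ ⟨p, hp, rfl⟩
    rw [hDdef] at hp ⊢
    rw [dil_apply]
    refine ⟨hp.1, fun s => ⟨fun h => ?_, fun h => ?_⟩⟩
    · change 1 ≤ ‖(a s : ℂ) * p.2 s‖ ∧ ‖(a s : ℂ) * p.2 s‖ ≤ 2
      rw [h, Complex.ofReal_one, one_mul]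
      exact (hp.2 s).1 h
    · change ‖(a s : ℂ) * p.2 s‖ ≤ 1
      rw [norm_mul, Complex.norm_real, Real.norm_eq_abs, abs_of_pos (ha s)]
      have h2 := (hp.2 s).2 h
      have h3 := norm_nonneg (p.2 s)
      nlinarith [ha s]
  have hdis : Disjoint U (dil n a '' D) := by
    rw [Set.disjoint_left]
    rintro q hq ⟨p, hp, rfl⟩
    rw [hUdef] at hq
    rw [hDdef] at hp
    have h1 := ((hq.2 s0).2 hs0).1
    rw [dil_apply] at h1
    change a s0 < ‖(a s0 : ℂ) * p.2 s0‖ at h1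
    rw [norm_mul, Complex.norm_real, Real.norm_eq_abs, abs_of_pos (ha s0)] at h1
    have h2 := (hp.2 s0).2 hs0
    nlinarith [ha s0]
  have hDP : D ⊆ {p | IsPt p.2} := by
    intro p hp j
    rw [hDdef] at hp
    obtain ⟨i, hi⟩ := hblk j
    refine ⟨i, fun h => ?_⟩
    have h1 := ((hp.2 ⟨j, i⟩).1 hi).1
    rw [h, norm_zero] at h1
    linarith
  have hfD := hklt.integrableOn_compact_subset hDP hDc
  have ht : 0 < A ^ 2 * B ^ (-(2 / (m : ℝ))) := mul_pos (pow_pos hA 2) (Real.rpow_pos_of_pos hB _)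
  refine scale_lt ha ht ?_ hDc hfD hDD hUD hdis ?_
  · intro p
    rw [dil_apply]
    change ‖ρ p.1 * eval (fun s => (a s : ℂ) * p.2 s) σ‖ ^ 2 *
      ‖eval (fun s => (a s : ℂ) * p.2 s) (β p.1)‖ ^ (-(2 / (m : ℝ))) = _
    rw [hσ, hβa, norm_mul, norm_mul, norm_mul (B : ℂ), Complex.norm_real, Complex.norm_real,
      Real.norm_eq_abs, Real.norm_eq_abs, abs_of_pos hA, abs_of_pos hB,
      Real.mul_rpow hB.le (norm_nonneg _), norm_mul]
    ring
  · intro h0
    have hG1 : Differentiable ℂ fun p : (Fin n → ℂ) × (Co r → ℂ) => eval p.2 σ :=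
      holo_eval (n := n) (β := fun _ => σ) (fun I => differentiable_const _) fun _ => hl
    have hG2 := holo_eval hβ.holo hβ.homog
    have hG : Differentiable ℂ fun p : (Fin n → ℂ) × (Co r → ℂ) =>
        ρ p.1 * eval p.2 σ * eval p.2 (β p.1) :=
      ((hρ.comp differentiable_fst).mul hG1).mul hG2
    have hmeas : Measurable fun p : (Fin n → ℂ) × (Co r → ℂ) =>
        ENNReal.ofReal (‖ρ p.1 * eval p.2 σ‖ ^ 2 * ‖eval p.2 (β p.1)‖ ^ (-(2 / (m : ℝ)))) := by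
      refine ENNReal.measurable_ofReal.comp (Measurable.mul ?_ ?_)
      · exact (((hρ.comp differentiable_fst).mul hG1).continuous.norm.pow 2).measurable
      · exact (hG2.continuous.norm.measurable).pow_const _
    rw [lintegral_eq_zero_iff hmeas] at h0
    have h1 : (fun p : (Fin n → ℂ) × (Co r → ℂ) => ρ p.1 * eval p.2 σ * eval p.2 (β p.1))
        =ᵐ[volume.restrict U] fun _ => 0 := by
      filter_upwards [h0] with p hp
      by_contra hne
      have h2 := left_ne_zero_of_mul hne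
      have h3 := right_ne_zero_of_mul hne
      have h4 : 0 < ‖ρ p.1 * eval p.2 σ‖ ^ 2 * ‖eval p.2 (β p.1)‖ ^ (-(2 / (m : ℝ))) :=
        mul_pos (pow_pos (norm_pos_iff.2 h2) 2) (Real.rpow_pos_of_pos (norm_pos_iff.2 h3) _)
      have h5 : ENNReal.ofReal (‖ρ p.1 * eval p.2 σ‖ ^ 2 *
        ‖eval p.2 (β p.1)‖ ^ (-(2 / (m : ℝ)))) = 0 := hp
      rw [ENNReal.ofReal_eq_zero] at h5
      linarith
    have h2 := Measure.eqOn_open_of_ae_eq h1 hUo hG.continuous.continuousOn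
      continuousOn_const
    obtain ⟨v, z, h3, h4, h5⟩ := exists_pt hρ hβ.holo hρ0 hσ0 hβ.ne_zero
    have h6 := holo_zero hG hUo hUne (fun p hp => h2 hp) (v, z)
    exact mul_ne_zero (mul_ne_zero h3 h4) h5 h6

end Pool.Agent.T2H08.FQ
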