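import Pool.Agent.W594.SYZ.TQDefs
import Mathlib.LinearAlgebra.Determinant
import Mathlib.Algebra.MvPolynomial.Eval
import Mathlib.MeasureTheory.Function.LocallyIntegrable

/-!
# Pairs on quotients of flat bundles of products of projective spaces over complex tori: definitions
-/

set_option autoImplicit false

namespace Pool.Agent.T2H08.FB

open MvPolynomial

/-- The indices of the homogeneous coordinates of `F = P^{r 0} × ... × P^{r (c - 1)}`: the coordinates
with the indices `⟨j, i⟩` are the coordinates of the `j`-th factor. -/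
abbrev Co {c : ℕ} (r : Fin c → ℕ) : Type := Σ j, Fin (r j + 1)

variable {n c : ℕ} {r : Fin c → ℕ}

/-- `z` gives a point of `F`: for each factor one of the coordinates is not zero. -/
def IsPt (z : Co r → ℂ) : Prop := ∀ j, ∃ i, z ⟨j, i⟩ ≠ 0

/-- The multiplication of the coordinates of the `j`-th factor with the number `μ j`; it does not change
the point of `F`. -/
def mulBy (μ : Fin c → ℂˣ) (z : Co r → ℂ) : Co r → ℂ := fun s => μ s.1 * z s

variable (n r) in
/-- The group of the pairs of an affine transformation of `V = ℂ^n` and a linear transformation of the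
homogeneous coordinates of `F`. -/
def Trans : Type :=
  ((Fin n → ℂ) ≃ᵃ[ℂ] (Fin n → ℂ)) × ((Co r → ℂ) ≃ₗ[ℂ] (Co r → ℂ))

instance : Group (Trans n r) := Prod.instGroup

/-- The affine transformation of `V`. -/
def onV (g : Trans n r) (v : Fin n → ℂ) : Fin n → ℂ := g.1 v

/-- The linear transformation of the coordinates of `F`. -/
def onZ (g : Trans n r) (z : Co r → ℂ) : Co r → ℂ := g.2 z

/-- The determinant of the transformation. -/
noncomputable def jac (g : Trans n r) : ℂ :=
  LinearMap.det (g.1.linear : (Fin n → ℂ) →ₗ[ℂ] (Fin n → ℂ)) *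
    LinearMap.det (g.2 : (Co r → ℂ) →ₗ[ℂ] (Co r → ℂ))

/-- The vectors `b` such that some element of `Γ` acts on `V` as the translation by `b`. -/
def translations (Γ : Subgroup (Trans n r)) : Set (Fin n → ℂ) :=
  {b | ∃ g ∈ Γ, ∀ v, onV g v = b + v}

/-- The quotient of `V × F` by `Γ` is a quotient `X = Y / G` by a finite group `G` of a fibre product
`Y` of projective bundles `P (E_j) → T` over a complex torus `T`, where each `E_j` is a direct sum of flat
unitary line bundles.

* The linear transformations are unitary on the space of the coordinates of each factor.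
* `Γ` contains the multiplications of the coordinates of the factors with numbers of absolute value `1`,
  which act trivially on `V × F`.
* The translations form a lattice, and the number of the linear parts of the affine transformations is
  finite.
* The elements of `Γ` which act trivially on `V` give only finitely many transformations of `F`.
* The elements of some subgroup of `Γ` of finite index multiply each coordinate of `F` with a number. -/
structure IsFlatQuotient (Γ : Subgroup (Trans n r)) : Prop where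
  unitary : ∀ g ∈ Γ, ∀ (z : Co r → ℂ) (j : Fin c),
    ∑ i, ‖onZ g z ⟨j, i⟩‖ ^ 2 = ∑ i, ‖z ⟨j, i⟩‖ ^ 2
  scalar : ∀ μ : Fin c → ℂˣ, (∀ j, ‖(μ j : ℂ)‖ = 1) →
    ∃ g ∈ Γ, (∀ v, onV g v = v) ∧ ∀ z, onZ g z = mulBy μ z
  discrete : DiscreteTopology (translations Γ)
  span_top : Submodule.span ℝ (translations Γ) = ⊤
  finite_linear : {A : (Fin n → ℂ) → (Fin n → ℂ) | ∃ g ∈ Γ, ∀ v, A v = onV g v - onV g 0}.Finite
  kernel : ∃ S : Set (Trans n r), S.Finite ∧ ∀ g ∈ Γ, (∀ v, onV g v = v) →
    ∃ h ∈ S, ∃ μ : Fin c → ℂˣ, ∀ z, onZ g z = mulBy μ (onZ h z)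
  diagonal : ∃ D : Subgroup (Trans n r), D.relIndex Γ ≠ 0 ∧
    ∀ g ∈ D, ∃ χ : Co r → ℂˣ, ∀ z s, onZ g z s = χ s * z s

/-- A holomorphic line bundle on `X = (V × F) / Γ`: its pullback to `V × F` is the line bundle
`O (deg 0, ..., deg (c - 1))`, so that its sections are functions `s (v, z)` which are homogeneous of
degree `deg j` in the coordinates of the `j`-th factor, and `e` is a factor of automorphy for `Γ`, such
that the stabiliser of every point of `V × F` acts trivially on the fibre: if `g` fixes the point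
`(v, z)`, that is, `g v = v` and `g z = μ z`, then `e_g (v) = ∏ μ j ^ deg j`. (The values `e g` for `g` not
in `Γ` are of no importance.) -/
structure LineBundle (Γ : Subgroup (Trans n r)) where
  deg : Fin c → ℤ
  e : Trans n r → (Fin n → ℂ) → ℂ
  holo : ∀ g ∈ Γ, Differentiable ℂ (e g)
  ne_zero : ∀ g ∈ Γ, ∀ v, e g v ≠ 0
  mul : ∀ g ∈ Γ, ∀ h ∈ Γ, ∀ v, e (g * h) v = e g (onV h v) * e h v
  stab : ∀ g ∈ Γ, ∀ v z (μ : Fin c → ℂˣ), IsPt z → onV g v = v → onZ g z = mulBy μ z →
    e g v = ∏ j, (μ j : ℂ) ^ deg j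

/-- A global section of `L ^ M`: a holomorphic function `s (v, z)`, homogeneous of degree `M * deg j` in
the coordinates of the `j`-th factor, with `s (g v, g z) = e_g (v) ^ M s (v, z)` for all `g` in `Γ`. -/
structure LineBundle.IsSection {Γ : Subgroup (Trans n r)} (L : LineBundle Γ) (M : ℕ)
    (s : (Fin n → ℂ) → (Co r → ℂ) → ℂ) : Prop where
  holo : Differentiable ℂ fun p : (Fin n → ℂ) × (Co r → ℂ) => s p.1 p.2
  homog : ∀ (μ : Fin c → ℂˣ) v z, s v (mulBy μ z) = (∏ j, (μ j : ℂ) ^ (M * L.deg j)) * s v z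
  eq : ∀ g ∈ Γ, ∀ v z, s (onV g v) (onZ g z) = L.e g v ^ M * s v z

/-- `L` is semiample: the sections of some power `L ^ M`, `M ≥ 1`, have no common zero. -/
def LineBundle.IsSemiample {Γ : Subgroup (Trans n r)} (L : LineBundle Γ) : Prop :=
  ∃ M : ℕ, 1 ≤ M ∧ ∀ v z, IsPt z → ∃ s, L.IsSection M s ∧ s v z ≠ 0

/-- The class `c_1 (L)` is `H + ∑ deg j ω_j`, `ω_j` the class of the Fubini-Study metric of the `j`-th
factor: for some holomorphic function `f` on `V` the formula
`‖s (v, z)‖² = |s (v, z)|² exp (- π H (v, v) - 2 Re f (v)) ∏ |z_j| ^ (- 2 deg j)` defines a hermitian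
metric on `L`, that is, this expression is invariant under `Γ` when `s` is a section of `L`. -/
def LineBundle.IsChernForm {Γ : Subgroup (Trans n r)} (L : LineBundle Γ)
    (H : (Fin n → ℂ) → (Fin n → ℂ) → ℂ) : Prop :=
  Pool.Agent.W594.SYZ2.IsHermitian H ∧ ∃ f : (Fin n → ℂ) → ℂ, Differentiable ℂ f ∧
    ∀ g ∈ Γ, ∀ v, ‖L.e g v‖ ^ 2 =
      Real.exp (Real.pi * (H (onV g v) (onV g v)).re + 2 * (f (onV g v)).re
        - (Real.pi * (H v v).re + 2 * (f v).re))

/-- The line bundle `L` with the class `H + ∑ deg j ω_j` is nef: `H` is positive semidefinite and the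
degrees are not negative. -/
def LineBundle.IsNef {Γ : Subgroup (Trans n r)} (L : LineBundle Γ)
    (H : (Fin n → ℂ) → (Fin n → ℂ) → ℂ) : Prop :=
  Pool.Agent.W594.SYZ2.IsNefForm H ∧ ∀ j, 0 ≤ L.deg j

/-- The transformation of `V × F` given by `g` fixes each point `(v, z)` of the set `P`. -/
def Fixes (g : Trans n r) (P : (Fin n → ℂ) → (Co r → ℂ) → Prop) : Prop :=
  ∀ v z, P v z → onV g v = v ∧ ∃ μ : Fin c → ℂˣ, onZ g z = mulBy μ z

/-- The set of the elements which give the same transformation of `V × F` as `g`. -/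
def same (g : Trans n r) : Set (Trans n r) :=
  {h | (∀ v, onV h v = onV g v) ∧ ∃ μ : Fin c → ℂˣ, ∀ z, onZ h z = mulBy μ (onZ g z)}

/-- The number of the transformations of `V × F` (the identity included) which are given by the elements
of `Γ` and fix each point of the divisor `P` of `V × F`. -/
noncomputable def ramIndex (Γ : Subgroup (Trans n r)) (P : (Fin n → ℂ) → (Co r → ℂ) → Prop) : ℕ :=
  Nat.card {x : Set (Trans n r) // ∃ g ∈ Γ, Fixes g P ∧ x = same g}

/-- The linear form on `V` with the coefficients `a`. -/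
def lin (a v : Fin n → ℂ) : ℂ := ∑ i, a i * v i

/-- The linear form in the coordinates of the `j`-th factor with the coefficients `a`. -/
noncomputable def form (j : Fin c) (a : Fin (r j + 1) → ℂ) : MvPolynomial (Co r) ℂ :=
  ∑ i, C (a i) * X ⟨j, i⟩

/-- `p` is homogeneous of degree `k j` in the coordinates of the `j`-th factor, for all `j`. -/
def IsHomog (k : Fin c → ℕ) (p : MvPolynomial (Co r) ℂ) : Prop :=
  ∀ I, coeff I p ≠ 0 → ∀ j, ∑ i, I ⟨j, i⟩ = k j

/-- The ramification divisor of `V × F → X = (V × F) / Γ` is the sum of a divisor of `V`, defined by the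
entire function `ρ`, and of a divisor of `F`, defined by the polynomial `σ`, which is homogeneous of
degree `l j` in the coordinates of the `j`-th factor. (A transformation of `V × F` given by an element of
`Γ` which fixes the points of a divisor acts trivially on `F` and fixes the points of a hyperplane of `V`,
or it acts trivially on `V` and fixes the points of a hyperplane of one of the factors of `F`.)

* The zeros of `ρ` are the points `v` for which some element of `Γ`, which acts nontrivially on `V`, fixes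
  each point of `{a = a (v)} × F`, for some linear form `a ≠ 0`.
* Along each hyperplane `a = t` it vanishes exactly to the order `ramIndex - 1`.
* The zeros of `σ` are the points `z` for which some element of `Γ`, which acts nontrivially on `F`, fixes
  each point of the divisor `V × {a = 0}`, for some linear form `a ≠ 0` in the coordinates of one of the
  factors with `a (z) = 0`.
* Along each divisor `a = 0` of this kind it vanishes exactly to the order `ramIndex - 1`.
* The divisor of `σ` is invariant under `Γ`. -/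
structure IsRamification (Γ : Subgroup (Trans n r)) (ρ : (Fin n → ℂ) → ℂ)
    (σ : MvPolynomial (Co r) ℂ) (l : Fin c → ℕ) : Prop where
  holo : Differentiable ℂ ρ
  rho_ne_zero : ∃ v, ρ v ≠ 0
  rho_zero : ∀ v, ρ v = 0 ↔ ∃ g ∈ Γ, (∃ w, onV g w ≠ w) ∧
    ∃ a : Fin n → ℂ, a ≠ 0 ∧ Fixes g fun w _ => lin a w = lin a v
  rho_order : ∀ (a : Fin n → ℂ) (t : ℂ), a ≠ 0 → ∃ q : (Fin n → ℂ) → ℂ, Differentiable ℂ q ∧
    (∀ v, ρ v = (lin a v - t) ^ (ramIndex Γ (fun w _ => lin a w = t) - 1) * q v) ∧
    ∃ v, lin a v = t ∧ q v ≠ 0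
  ne_zero : σ ≠ 0
  homog : IsHomog l σ
  zero : ∀ z, IsPt z → (eval z σ = 0 ↔ ∃ g ∈ Γ, (¬ ∃ μ : Fin c → ℂˣ, ∀ w, onZ g w = mulBy μ w) ∧
    ∃ (j : Fin c) (a : Fin (r j + 1) → ℂ), a ≠ 0 ∧ eval z (form j a) = 0 ∧
      Fixes g fun _ w => eval w (form j a) = 0)
  order : ∀ (j : Fin c) (a : Fin (r j + 1) → ℂ), a ≠ 0 → ∃ p : MvPolynomial (Co r) ℂ,
    σ = form j a ^ (ramIndex Γ (fun _ w => eval w (form j a) = 0) - 1) * p ∧ ¬ form j a ∣ p
  inv : ∀ g ∈ Γ, ∃ t : ℂ, ∀ z, eval (onZ g z) σ = t * eval z σ

/-- `β` defines an effective divisor on `V × F`: it is a polynomial in the coordinates of `F`,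
homogeneous of degree `k j` in the coordinates of the `j`-th factor, whose coefficients are entire
functions on `V`, not all zero. -/
structure IsEffective (β : (Fin n → ℂ) → MvPolynomial (Co r) ℂ) (k : Fin c → ℕ) : Prop where
  holo : ∀ I, Differentiable ℂ fun v => coeff I (β v)
  homog : ∀ v, IsHomog k (β v)
  ne_zero : ∃ v, β v ≠ 0

/-- `L` is the line bundle `O_X (m (K_X + B))`, where `ρ` and `σ` define the ramification divisor and
`β` defines the pullback of the effective divisor `m B` to `V × F`. Here the local section `s` of `L` is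
the `m`-canonical form `s ρ ^ m σ ^ m / β (dv Ω) ^ m`, which is invariant under `Γ`; `Ω = ∧ Ω_j`,
`Ω_j = ∑ i, (-1) ^ i z_i dz_0 ∧ ... dz_i omitted ... ∧ dz_{r j}`, is homogeneous of degree `r j + 1` in the
coordinates of the `j`-th factor, and `g^* (dv Ω) = jac (g) dv Ω`. -/
structure IsLogPluricanonical {Γ : Subgroup (Trans n r)} (L : LineBundle Γ) (m : ℕ)
    (ρ : (Fin n → ℂ) → ℂ) (σ : MvPolynomial (Co r) ℂ) (l : Fin c → ℕ)
    (β : (Fin n → ℂ) → MvPolynomial (Co r) ℂ) (k : Fin c → ℕ) : Prop where
  deg : ∀ j, L.deg j + m * (l j + (r j + 1)) = k j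
  eq : ∀ g ∈ Γ, ∀ v z,
    eval (onZ g z) (β (onV g v)) * (ρ v * eval z σ) ^ m =
      L.e g v * jac g ^ m * eval z (β v) * (ρ (onV g v) * eval (onZ g z) σ) ^ m

/-- The pair `(X, B)` is klt: `|ρ σ|² / |β| ^ (2 / m)` is locally integrable on the set of the `(v, z)`
which give points of `V × F`, `β` the function which defines the pullback of `m B`. -/
def IsKlt (m : ℕ) (ρ : (Fin n → ℂ) → ℂ) (σ : MvPolynomial (Co r) ℂ)
    (β : (Fin n → ℂ) → MvPolynomial (Co r) ℂ) : Prop :=
  MeasureTheory.LocallyIntegrableOn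
    (fun p : (Fin n → ℂ) × (Co r → ℂ) =>
      ‖ρ p.1 * eval p.2 σ‖ ^ 2 * ‖eval p.2 (β p.1)‖ ^ (-(2 / (m : ℝ))))
    {p | IsPt p.2}

end Pool.Agent.T2H08.FB
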