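import Pool.Agent.T2H08.FQ.Coef

/-!
# The value of the character on the lattice vectors
-/

set_option autoImplicit false

namespace Pool.Agent.T2H08.FQ

open Pool.Agent.W594.SYZ2 Pool.Agent.W594.SYZ2.TQ Pool.Agent.TH735.AQ MvPolynomial

variable {n c : ℕ} {r : Fin c → ℕ} {Γ : Subgroup (Grp n r)}

variable {L : LineBundle Γ} {ρ : (Fin n → ℂ) → ℂ} {σ : MvPolynomial (Co r) ℂ} {l k : Fin c → ℕ}
  {β : (Fin n → ℂ) → MvPolynomial (Co r) ℂ} {m : ℕ} {H : (Fin n → ℂ) → (Fin n → ℂ) → ℂ}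
  {f : (Fin n → ℂ) → ℂ}

theorem exists_ext {α : Type*} {P : α → Prop} (g : ∀ b, P b → ℂ) :
    ∃ κ : α → ℂ, ∀ b hb, κ b = g b hb := by
  classical
  exact ⟨fun b => if hb : P b then g b hb else 0, fun b hb => dif_pos hb⟩

theorem norm_sigma {χ : Co r → ℂˣ} (hχ : ∀ s, ‖(χ s : ℂ)‖ = 1) (hσ0 : σ ≠ 0) {a : ℂ}
    (ha : ∀ z, eval (diag χ z) σ = a * eval z σ) : ‖a‖ = 1 := by
  obtain ⟨J, hJ⟩ := MvPolynomial.support_nonempty.2 hσ0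
  rw [← coeff_sigma ha hJ, norm_prod]
  refine Finset.prod_eq_one ?_
  intro s _
  rw [norm_pow, hχ s, one_pow]

/-- the constant -/
noncomputable def kap (d : Fin c → ℤ) (ι : ∀ j, Fin (r j + 1)) (I : Co r →₀ ℕ) (m : ℕ)
    (χ : Co r → ℂˣ) (a : ℂ) : ℂ :=
  (∏ s, (χ s : ℂ) ^ I s)⁻¹ * (∏ s, (χ s : ℂ)) ^ m * a ^ m * (∏ j, (χ ⟨j, ι j⟩ : ℂ) ^ d j)

theorem norm_kap (d : Fin c → ℤ) (ι : ∀ j, Fin (r j + 1)) (I : Co r →₀ ℕ) (m : ℕ)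
    {χ : Co r → ℂˣ} (hχ : ∀ s, ‖(χ s : ℂ)‖ = 1) {a : ℂ} (ha : ‖a‖ = 1) :
    ‖kap d ι I m χ a‖ = 1 := by
  unfold kap
  have h1 : ‖∏ s, (χ s : ℂ) ^ I s‖ = 1 := by
    rw [norm_prod]
    refine Finset.prod_eq_one ?_
    intro s _
    rw [norm_pow, hχ s, one_pow]
  have h2 : ‖∏ s, (χ s : ℂ)‖ = 1 := by
    rw [norm_prod]
    refine Finset.prod_eq_one ?_
    intro s _
    rw [hχ s]
  have h3 : ‖∏ j, (χ ⟨j, ι j⟩ : ℂ) ^ d j‖ = 1 := by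
    rw [norm_prod]
    refine Finset.prod_eq_one ?_
    intro s _
    rw [norm_zpow, hχ _, one_zpow]
  rw [norm_mul, norm_mul, norm_mul, norm_inv, h1, norm_pow, h2, norm_pow, ha, h3]
  norm_num

theorem eq_kap (hL : IsLogPluricanonical L m ρ σ l β k) (hσ0 : σ ≠ 0) (ι : ∀ j, Fin (r j + 1))
    (I : Co r →₀ ℕ) {b : Fin n → ℂ} (hb : b ∈ latt (GD Γ)) {a : ℂ}
    (ha : ∀ z, eval (diag (chiOf (tr b hb)) z) σ = a * eval z σ) (v : Fin n → ℂ) :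
    coeff I (β (b + v)) * ρ v ^ m =
      kap L.deg ι I m (chiOf (tr b hb)) a * (secL L ι).e (tr b hb) v * coeff I (β v) *
        ρ (b + v) ^ m := by
  have h1 := coeff_beta hL hσ0 (lft (tr b hb)).2 ha v I
  have h2 : ∏ s, (chiOf (tr b hb) s : ℂ) ^ I s ≠ 0 :=
    Finset.prod_ne_zero_iff.2 fun s _ => pow_ne_zero _ (Units.ne_zero _)
  have h3 : ∏ j, (chiOf (tr b hb) ⟨j, ι j⟩ : ℂ) ^ L.deg j ≠ 0 :=
    Finset.prod_ne_zero_iff.2 fun s _ => zpow_ne_zero _ (Units.ne_zero _)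
  have h4 : (secL L ι).e (tr b hb) v = L.e (lft (tr b hb)) v *
    (∏ j, (chiOf (tr b hb) ⟨j, ι j⟩ : ℂ) ^ L.deg j)⁻¹ := rfl
  have h1' : coeff I (β (b + v)) * (∏ s, (chiOf (tr b hb) s : ℂ) ^ I s) * ρ v ^ m =
    L.e (lft (tr b hb)) v * (∏ s, (chiOf (tr b hb) s : ℂ)) ^ m * a ^ m * coeff I (β v) *
      ρ (b + v) ^ m := h1
  rw [h4]
  unfold kap
  generalize L.e (lft (tr b hb)) v = E at h1' ⊢
  generalize ∏ s, (chiOf (tr b hb) s : ℂ) ^ I s = P1 at h1' h2 ⊢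
  generalize (∏ s, (chiOf (tr b hb) s : ℂ)) = P2 at h1' ⊢
  generalize ∏ j, (chiOf (tr b hb) ⟨j, ι j⟩ : ℂ) ^ L.deg j = P3 at h3 ⊢
  field_simp
  linear_combination h1'


theorem inv_diag (hρ : IsRamification Γ ρ σ l) (γ : GD Γ) :
    ∃ a : ℂ, ∀ z, eval (diag (chiOf γ) z) σ = a * eval z σ := by
  obtain ⟨a, ha⟩ := hρ.inv (γ, diag (chiOf γ)) (mem_GD.1 γ.2).choose_spec
  exact ⟨a, fun z => ha z⟩

/-- The value of the character. -/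
theorem chi_value (hΓ : IsFlatQuotient Γ) (hρ : IsRamification Γ ρ σ l)
    (hβ : IsEffective β k) (hL : IsLogPluricanonical L m ρ σ l β k) (hH : IsHermitian H)
    (hn : IsNefForm H) (ι : ∀ j, Fin (r j + 1)) (hpot : IsPot (secL L ι) H f)
    {I : Co r →₀ ℕ} (hI : ∃ v, coeff I (β v) ≠ 0) {b : Fin n → ℂ} (hb : b ∈ latt (GD Γ))
    (hbK : b ∈ KN (GD Γ) (ker hH)) {a : ℂ}
    (ha : ∀ z, eval (diag (chiOf (tr b hb)) z) σ = a * eval z σ) :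
    kap L.deg ι I m (chiOf (tr b hb)) a * chi (secL L ι) f b = 1 := by
  classical
  have hG := torus_GD hΓ
  obtain ⟨v₀, hv₀, hv₀'⟩ := exists_common (hβ.holo I) hρ.holo hI hρ.rne
  have hnu : ∀ (b : Fin n → ℂ) (hb : b ∈ latt (GD Γ)), ∃ a : ℂ,
      ∀ z, eval (diag (chiOf (tr b hb)) z) σ = a * eval z σ := fun b hb =>
    inv_diag hρ (tr b hb)
  choose A hA using hnu
  obtain ⟨κ, hκ⟩ : ∃ κ : (Fin n → ℂ) → ℂ, ∀ (b : Fin n → ℂ) (hb : b ∈ latt (GD Γ)),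
      κ b = kap L.deg ι I m (chiOf (tr b hb)) (A b hb) :=
    exists_ext (P := fun b => b ∈ latt (GD Γ)) fun b hb =>
      kap L.deg ι I m (chiOf (tr b hb)) (A b hb)
  have hκ1 : ∀ b ∈ latt (GD Γ), b ∈ KN (GD Γ) (ker hH) → ‖κ b‖ = 1 := by
    intro b hb _
    have h1 : ∀ s, ‖(chiOf (tr b hb) s : ℂ)‖ = 1 := norm_chi hΓ (lft (tr b hb)).2
    rw [hκ b hb]
    exact norm_kap _ _ _ _ h1 (norm_sigma h1 hρ.ne_zero (hA b hb))
  have heq : ∀ (b : Fin n → ℂ) (hb : b ∈ latt (GD Γ)), b ∈ KN (GD Γ) (ker hH) →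
      ∀ v : Fin n → ℂ, coeff I (β (b + v)) * ρ v ^ m =
        κ b * (secL L ι).e (tr b hb) v * coeff I (β v) * ρ (b + v) ^ m := by
    intro b hb _ v
    rw [hκ b hb]
    exact eq_kap hL hρ.ne_zero ι I hb (hA b hb) v
  have hmir : ¬ OnMirror (GV Γ) v₀ := fun h => hv₀' ((hρ.rzero v₀).2 h)
  have hzero : ∀ v, ρ v ^ m = 0 → OnMirror (GV Γ) v := fun v hv =>
    (hρ.rzero v).1 (eq_zero_of_pow_eq_zero hv)
  have hs : Differentiable ℂ fun v => ρ v ^ m := hρ.holo.pow m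
  have key : κ b * chi (secL L ι) f b = 1 :=
    kappa_one (M := secL L ι) (θ := fun v => coeff I (β v)) (s := fun v => ρ v ^ m)
      GV_le hG hH hpot hn (hβ.holo I) hs hv₀ hmir hzero hκ1 heq b hb hbK
  have h1 : A b hb = a := by
    obtain ⟨z, hz⟩ : ∃ z, eval z σ ≠ 0 := by
      by_contra hcon
      push Not at hcon
      exact hρ.ne_zero (MvPolynomial.funext fun z => by rw [hcon, map_zero])
    exact mul_right_cancel₀ hz ((hA b hb z).symm.trans (ha z))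
  rw [hκ b hb, h1] at key
  exact key

end Pool.Agent.T2H08.FQ
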